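import Pool.Agent.T9h50.AN.Tab
import Pool.Agent.H12R2.And4

set_option autoImplicit false

/-! Soundness of the check. -/

namespace Pool.Agent.T9h50.AN

open Finset Complex Pool.Agent.H12R2.And

/-- the data of a window: a periodic pattern, the centre `e` and the half width `dn` of the window
(in units of `10⁻⁴`), the radius `R` of the tables -/
structure Wd where
  N : ℕ
  al : ℕ
  be : ℕ
  bits : ℕ
  e : ℕ
  dn : ℕ
  R : ℕ

/-- the class of a site -/
def cl (w : Wd) (y : V 2) : ℕ := (((w.al : ℤ) * y 0 + (w.be : ℤ) * y 1) % (w.N : ℤ)).toNat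

/-- the periodic pattern -/
def patt (w : Wd) (y : V 2) : Bool := Nat.beq (Nat.mod (Nat.shiftRight w.bits (cl w y)) 2) 1

/-- all the tables pass the check -/
def ok (w : Wd) (Ts : List ℕ) : Bool :=
  Nat.ble w.e 50000 && Nat.beq Ts.length w.N && Nat.ble 1 w.N &&
    chkAll w.N w.al w.be w.bits (70000 - w.e) (50000 - w.e) w.dn w.R (2 * w.R + 1) (2 * w.R + 3) Ts 0

lemma ok_intro {w : Wd} {Ts : List ℕ} (he : Nat.ble w.e 50000 = true)
    (hl : Nat.beq Ts.length w.N = true) (hN : Nat.ble 1 w.N = true)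
    (h : chkAll w.N w.al w.be w.bits (70000 - w.e) (50000 - w.e) w.dn w.R (2 * w.R + 1)
      (2 * w.R + 3) Ts 0 = true) : ok w Ts = true := by
  unfold ok; rw [he, hl, hN, h]; rfl

lemma sumTo_eq (f : ℕ → ℕ) (n : ℕ) : sumTo f n = ∑ i ∈ range n, f i := by
  induction n with
  | zero => rfl
  | succ n ih => rw [Finset.sum_range_succ, ← ih]; rfl

lemma ab_eq (P M : ℕ) : ((ab P M : ℕ) : ℤ) = |(P : ℤ) - (M : ℤ)| := by
  unfold ab
  change (((P - M) + (M - P) : ℕ) : ℤ) = _
  rcases le_total P M with h | h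
  · rw [Nat.sub_eq_zero_of_le h, zero_add, abs_of_nonpos (by omega)]
    omega
  · rw [Nat.sub_eq_zero_of_le h, add_zero, abs_of_nonneg (by omega)]
    omega

/-- the table as a function on `ℤ × ℤ` -/
def gz (m T : ℕ) (i j : ℤ) : ℤ := ((gv m T i.toNat j.toNat : ℕ) : ℤ) - 8388608

lemma ble_t {a b : ℕ} (h : a ≤ b) : Nat.ble a b = true := by rw [Nat.ble_eq]; exact h

lemma ble_f {a b : ℕ} (h : ¬ a ≤ b) : Nat.ble a b = false := by
  rw [← Bool.not_eq_true, Nat.ble_eq]; exact h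

lemma beq_f {a b : ℕ} (h : ¬ a = b) : Nat.beq a b = false := by
  rw [← Bool.not_eq_true, Nat.beq_eq]; exact h

lemma gv_out {m T i j : ℕ} (h : ¬ (1 ≤ i ∧ i ≤ m ∧ 1 ≤ j ∧ j ≤ m)) : gv m T i j = 8388608 := by
  unfold gv
  by_cases h1 : 1 ≤ i
  · by_cases h2 : i ≤ m
    · by_cases h3 : 1 ≤ j
      · by_cases h4 : j ≤ m
        · exact absurd ⟨h1, h2, h3, h4⟩ h
        · rw [ble_t h1, ble_t h2, ble_t h3, ble_f h4]; rfl
      · rw [ble_t h1, ble_t h2, ble_f h3]; rfl
    · rw [ble_t h1, ble_f h2]; rfl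
  · rw [ble_f h1]; rfl

lemma gz_out {m T : ℕ} {i j : ℤ} (h : ¬ (1 ≤ i ∧ i ≤ m ∧ 1 ≤ j ∧ j ≤ m)) : gz m T i j = 0 := by
  unfold gz
  rw [gv_out]
  · norm_num
  · rintro ⟨h1, h2, h3, h4⟩
    apply h
    omega

lemma gz_nat {m T i j : ℕ} : gz m T (i : ℤ) (j : ℤ) = (gv m T i j : ℤ) - 8388608 := by
  unfold gz; simp

lemma gz_pred_left {m T i j : ℕ} :
    gz m T ((i : ℤ) - 1) (j : ℤ) = (gv m T (Nat.pred i) j : ℤ) - 8388608 := by
  unfold gz
  have : ((i : ℤ) - 1).toNat = Nat.pred i := by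
    rw [Nat.pred_eq_sub_one]; omega
  rw [this]; simp

lemma gz_pred_right {m T i j : ℕ} :
    gz m T (i : ℤ) ((j : ℤ) - 1) = (gv m T i (Nat.pred j) : ℤ) - 8388608 := by
  unfold gz
  have : ((j : ℤ) - 1).toNat = Nat.pred j := by
    rw [Nat.pred_eq_sub_one]; omega
  rw [this]; simp

lemma gz_succ_left {m T i j : ℕ} :
    gz m T ((i : ℤ) + 1) (j : ℤ) = (gv m T (Nat.succ i) j : ℤ) - 8388608 := by
  unfold gz
  have : ((i : ℤ) + 1).toNat = Nat.succ i := by omega
  rw [this]; simp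

lemma gz_succ_right {m T i j : ℕ} :
    gz m T (i : ℤ) ((j : ℤ) + 1) = (gv m T i (Nat.succ j) : ℤ) - 8388608 := by
  unfold gz
  have : ((j : ℤ) + 1).toNat = Nat.succ j := by omega
  rw [this]; simp

/-- the integer residual at `(i, j)`; `c` is the value of the diagonal coefficient -/
def rz (m T R : ℕ) (c : ℤ) (i j : ℤ) : ℤ :=
  (if i = R + 1 ∧ j = R + 1 then 2621440000 else 0) - (c * gz m T i j
    - 10000 * (gz m T (i + 1) j + gz m T (i - 1) j + gz m T i (j + 1) + gz m T i (j - 1)))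

lemma tm_eq (N al be bits e dn R m T b0 i j : ℕ) (he : e ≤ 50000) :
    ((tm N al be bits (70000 - e) (50000 - e) dn R m T b0 i j : ℕ) : ℤ) =
      |rz m T R (if Nat.beq (Nat.mod (Nat.shiftRight bits
        (Nat.mod (b0 + (al * i + be * j)) N)) 2) 1 then 50000 - e else 30000 - e) i j|
        + dn * |gz m T i j| := by
  unfold tm
  change (((ab _ _) + dn * (ab _ _) : ℕ) : ℤ) = _
  rw [Nat.cast_add, Nat.cast_mul, ab_eq, ab_eq, gz_nat]
  congr 1
  unfold rz
  rw [gz_pred_left, gz_pred_right, gz_succ_left, gz_succ_right, gz_nat]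
  congr 1
  have h1 : ((cc N al be bits (70000 - e) (50000 - e) b0 i j : ℕ) : ℤ) =
      (if Nat.beq (Nat.mod (Nat.shiftRight bits
        (Nat.mod (b0 + (al * i + be * j)) N)) 2) 1 then (50000 : ℤ) - e else 30000 - e) + 20000 := by
    unfold cc
    change ((cond (Nat.beq (Nat.mod (Nat.shiftRight bits (Nat.mod (b0 + (al * i + be * j)) N)) 2) 1) _ _ : ℕ) : ℤ) = _
    cases h : Nat.beq (Nat.mod (Nat.shiftRight bits (Nat.mod (b0 + (al * i + be * j)) N)) 2) 1
    · simp only [cond_false, Bool.false_eq_true, if_false]; omega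
    · simp only [cond_true, if_true]; omega
  have h2 : ((cond (Nat.beq i (Nat.succ R)) (cond (Nat.beq j (Nat.succ R)) 2621440000 0) 0 : ℕ) : ℤ) =
      (if (i : ℤ) = R + 1 ∧ (j : ℤ) = R + 1 then 2621440000 else 0) := by
    by_cases hi : i = R + 1
    · by_cases hj : j = R + 1
      · subst hi; subst hj; simp
      · have : Nat.beq j (Nat.succ R) = false := beq_f hj
        rw [this, if_neg (by omega)]
        cases Nat.beq i (Nat.succ R) <;> rfl
    · have : Nat.beq i (Nat.succ R) = false := beq_f hi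
      rw [this, if_neg (by omega)]
      rfl
  rw [← h2]
  set c := (if Nat.beq (Nat.mod (Nat.shiftRight bits
        (Nat.mod (b0 + (al * i + be * j)) N)) 2) 1 then (50000 : ℤ) - e else 30000 - e) with hc
  change (((cond (Nat.beq i (Nat.succ R)) (cond (Nat.beq j (Nat.succ R)) 2621440000 0) 0) +
    (10000 * ((gv m T (Nat.succ i) j + gv m T (Nat.pred i) j) + (gv m T i (Nat.succ j) + gv m T i (Nat.pred j)))
      + (20000 * gv m T i j + cc N al be bits (70000 - e) (50000 - e) b0 i j * 8388608)) : ℕ) : ℤ)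
      - ((cc N al be bits (70000 - e) (50000 - e) b0 i j * gv m T i j + 503316480000 : ℕ) : ℤ) = _
  push_cast
  rw [h1]
  ring

end Pool.Agent.T9h50.AN
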