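import Pool.Agent.H12R2.And11

set_option autoImplicit false

/-! Decoupling across the boundary of a general finite region, and the resulting criterion for the
absence of absolutely continuous spectrum. -/

namespace Pool.Agent.T9h50.AN

open Complex MeasureTheory Filter Pool.Agent.H12R2.And
open scoped ENNReal Topology InnerProductSpace

variable {d : ℕ}

/-- the decoupling estimate -/
lemma decG {ω : V d → Bool} {H : lp (fun _ : V d => ℂ) 2 →L[ℂ] lp (fun _ : V d => ℂ) 2}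
    (hH : IsH ω H) {E τ κ : ℝ} {D : Finset (V d)} (hτ0 : 0 < τ) (hτ1 : τ ≤ 1) (hκ0 : 0 ≤ κ)
    (hκ : 2 * d * D.card * κ ≤ τ ^ 5) (hNR : NR ω E D τ)
    {φ : lp (fun _ : V d => ℂ) 2} (hφ : ∀ x ∉ D, φ x = 0)
    (hsh : ∀ y ∉ D, (∃ x ∈ D, y ∈ Q x 1) → ‖(Rz H ((E : ℂ) + ((τ ^ 3 : ℝ) : ℂ) * I) φ) y‖
      ≤ κ * ‖Rz H ((E : ℂ) + ((τ ^ 3 : ℝ) : ℂ) * I) φ‖) :
    (inner ℂ φ (Rz H ((E : ℂ) + ((τ ^ 3 : ℝ) : ℂ) * I) φ)).im ≤ 7 * τ * ‖φ‖ ^ 2 := by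
  classical
  have hsa := hH.isSelfAdjoint
  set ε : ℝ := τ ^ 3 with hε
  have hε0 : 0 < ε := by positivity
  set z : ℂ := (E : ℂ) + (ε : ℂ) * I with hz
  have hzim : z.im = ε := by simp [hz]
  have hzim0 : z.im ≠ 0 := by rw [hzim]; exact hε0.ne'
  set u := Rz H z φ with hu
  have hsol : ∀ x, hop ω u x = z * u x + φ x := by
    intro x
    have h := sub_Rz hsa hzim0 φ
    have h2 : (H u) x - z * u x = φ x := by
      conv_rhs => rw [← h]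
      rfl
    rw [← hH]; linear_combination h2
  have hun : ‖u‖ * τ ^ 3 ≤ ‖φ‖ := by
    have h := norm_Rz_le hsa (z := z) (by rw [hzim]; exact hε0) φ
    rw [hzim, le_div_iff₀ hε0] at h
    exact h
  set T : ℝ := κ * ‖u‖ with hT
  have hT0 : 0 ≤ T := by positivity
  set v : V d → ℂ := fun x => if x ∈ D then u x else 0 with hv
  have hv0 : ∀ x ∉ D, v x = 0 := fun x hx => by simp [hv, hx]
  have hv1 : ∀ x ∈ D, v x = u x := fun x hx => by simp [hv, hx]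
  set e : V d → ℂ := fun x => hop ω v x - hop ω u x with he
  have he1 : ∀ x ∈ D, ‖e x‖ ≤ 2 * d * T := by
    intro x hx
    refine hop_sub_of_eq_on (hv1 x hx) ?_
    intro y hy
    by_cases hyD : y ∈ D
    · rw [hv1 y hyD, sub_self, norm_zero]; exact hT0
    · rw [hv0 y hyD, sub_zero]
      exact hsh y hyD ⟨x, hx, hy⟩
  have he2 : ∀ x ∈ D, hop ω v x - z * v x = φ x + e x := by
    intro x hx
    simp only [he]
    rw [hsol x, hv1 x hx]; ring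
  set A2 : ℝ := ∑ x ∈ D, ‖v x‖ ^ 2 with hA2
  set W : ℝ := D.card * (2 * d * T) ^ 2 with hW
  have hWe : ∑ x ∈ D, ‖e x‖ ^ 2 ≤ W := by
    calc ∑ x ∈ D, ‖e x‖ ^ 2 ≤ ∑ x ∈ D, (2 * d * T) ^ 2 := by
          apply Finset.sum_le_sum
          intro x hx
          exact pow_le_pow_left₀ (norm_nonneg _) (he1 x hx) 2
      _ = W := by rw [Finset.sum_const, nsmul_eq_mul]
  have hφ2 : ∑ x ∈ D, ‖φ x‖ ^ 2 ≤ ‖φ‖ ^ 2 := by
    have h := lp.sum_rpow_le_norm_rpow (p := 2) (by norm_num) φ D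
    simpa using h
  have hNR' := NR_complex hNR ε hv0
  have hA2W : τ ^ 2 * A2 ≤ 2 * ‖φ‖ ^ 2 + 2 * W := by
    refine hNR'.trans ?_
    calc ∑ x ∈ D, ‖hop ω v x - ((E : ℂ) + ε * I) * v x‖ ^ 2
        ≤ ∑ x ∈ D, (2 * ‖φ x‖ ^ 2 + 2 * ‖e x‖ ^ 2) := by
          apply Finset.sum_le_sum
          intro x hx
          rw [he2 x hx]
          have h1 := norm_add_le (φ x) (e x)
          have h2 : 0 ≤ ‖φ x + e x‖ := norm_nonneg _
          nlinarith [sq_nonneg (‖φ x‖ - ‖e x‖)]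
      _ = 2 * ∑ x ∈ D, ‖φ x‖ ^ 2 + 2 * ∑ x ∈ D, ‖e x‖ ^ 2 := by
          rw [Finset.sum_add_distrib, Finset.mul_sum, Finset.mul_sum]
      _ ≤ _ := by linarith
  -- bound for W
  have hWb : W ≤ τ ^ 4 * ‖φ‖ ^ 2 := by
    have hc : (D.card : ℝ) ≤ (D.card : ℝ) ^ 2 := by
      have : D.card ≤ D.card ^ 2 := Nat.le_self_pow (by norm_num) _
      exact_mod_cast this
    have h1 : W ≤ (2 * d * D.card * κ * ‖u‖) ^ 2 := by
      rw [hW, hT]
      calc (D.card : ℝ) * (2 * d * (κ * ‖u‖)) ^ 2 ≤ (D.card : ℝ) ^ 2 * (2 * d * (κ * ‖u‖)) ^ 2 := by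
            gcongr
        _ = _ := by ring
    have h2 : 2 * d * D.card * κ * ‖u‖ ≤ τ ^ 2 * ‖φ‖ := by
      calc 2 * d * D.card * κ * ‖u‖ ≤ τ ^ 5 * ‖u‖ := by gcongr
        _ = τ ^ 2 * (‖u‖ * τ ^ 3) := by ring
        _ ≤ τ ^ 2 * ‖φ‖ := by gcongr
    have h3 := pow_le_pow_left₀ (by positivity) h2 2
    calc W ≤ _ := h1
      _ ≤ _ := h3
      _ = _ := by ring
  have hτ4 : τ ^ 4 ≤ 1 := pow_le_one₀ hτ0.le hτ1
  have hW1 : W ≤ ‖φ‖ ^ 2 := by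
    refine hWb.trans ?_
    exact mul_le_of_le_one_left (by positivity) hτ4
  have hA20 : 0 ≤ A2 := by positivity
  have hA2b : τ ^ 2 * A2 ≤ 4 * ‖φ‖ ^ 2 := by linarith
  -- the imaginary part
  have him : (inner ℂ φ u).im = ε * A2 + (∑ x ∈ D, (starRingEnd ℂ) (v x) * e x).im := by
    have h1 : inner ℂ φ u = ∑ x ∈ D, (starRingEnd ℂ) (φ x) * v x := by
      rw [lp.inner_eq_tsum, tsum_eq_sum (s := D)]
      · apply Finset.sum_congr rfl
        intro x hx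
        rw [hv1 x hx]
        simp [mul_comm]
      · intro x hx
        rw [hφ x hx]
        simp
    have h2 : (∑ x ∈ D, (starRingEnd ℂ) (φ x) * v x).im
        = - (∑ x ∈ D, (starRingEnd ℂ) (v x) * φ x).im := by
      rw [← Complex.conj_im, map_sum]
      congr 1
      apply Finset.sum_congr rfl
      intro x _
      rw [map_mul, Complex.conj_conj, mul_comm]
    have h3 : ∑ x ∈ D, (starRingEnd ℂ) (v x) * φ x = ∑ x ∈ D, (starRingEnd ℂ) (v x) * hop ω v x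
        - z * (A2 : ℂ) - ∑ x ∈ D, (starRingEnd ℂ) (v x) * e x := by
      rw [hA2]
      push_cast
      rw [Finset.mul_sum, ← Finset.sum_sub_distrib, ← Finset.sum_sub_distrib]
      apply Finset.sum_congr rfl
      intro x hx
      have h4 := he2 x hx
      have h5 : (starRingEnd ℂ) (v x) * v x = (‖v x‖ : ℂ) ^ 2 := Complex.conj_mul' _
      have h6 : φ x = hop ω v x - z * v x - e x := by rw [h4]; ring
      rw [h6, ← h5]; ring
    rw [h1, h2, h3, Complex.sub_im, Complex.sub_im, im_form_zero hv0]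
    have : (z * (A2 : ℂ)).im = ε * A2 := by
      rw [Complex.mul_im]; simp [hzim]
    rw [this]; ring
  have hcross : (∑ x ∈ D, (starRingEnd ℂ) (v x) * e x).im ≤ ε / 2 * A2 + (2 * ε)⁻¹ * W := by
    calc (∑ x ∈ D, (starRingEnd ℂ) (v x) * e x).im
        ≤ ‖∑ x ∈ D, (starRingEnd ℂ) (v x) * e x‖ := (le_abs_self _).trans (Complex.abs_im_le_norm _)
      _ ≤ ∑ x ∈ D, ‖(starRingEnd ℂ) (v x) * e x‖ := norm_sum_le _ _
      _ ≤ ∑ x ∈ D, (ε / 2 * ‖v x‖ ^ 2 + (2 * ε)⁻¹ * ‖e x‖ ^ 2) := by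
          apply Finset.sum_le_sum
          intro x _
          rw [norm_mul, Complex.norm_conj]
          have h1 : ε / 2 * ‖v x‖ ^ 2 + (2 * ε)⁻¹ * ‖e x‖ ^ 2 - ‖v x‖ * ‖e x‖
              = (2 * ε)⁻¹ * (ε * ‖v x‖ - ‖e x‖) ^ 2 := by
            field_simp; ring
          have h2 : 0 ≤ (2 * ε)⁻¹ * (ε * ‖v x‖ - ‖e x‖) ^ 2 := by positivity
          linarith
      _ = ε / 2 * A2 + (2 * ε)⁻¹ * ∑ x ∈ D, ‖e x‖ ^ 2 := by
          rw [Finset.sum_add_distrib, Finset.mul_sum, Finset.mul_sum]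
      _ ≤ _ := by gcongr
  rw [him]
  have f1 : ε * A2 ≤ 4 * τ * ‖φ‖ ^ 2 := by
    calc ε * A2 = τ * (τ ^ 2 * A2) := by rw [hε]; ring
      _ ≤ τ * (4 * ‖φ‖ ^ 2) := by gcongr
      _ = _ := by ring
  have f3 : (2 * ε)⁻¹ * W ≤ τ * ‖φ‖ ^ 2 := by
    calc (2 * ε)⁻¹ * W ≤ (2 * ε)⁻¹ * (τ ^ 4 * ‖φ‖ ^ 2) := by gcongr
      _ = 1 / 2 * (τ * ‖φ‖ ^ 2) := by rw [hε]; field_simp
      _ ≤ _ := by
          have : 0 ≤ τ * ‖φ‖ ^ 2 := by positivity
          linarith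
  linarith

/-- the criterion -/
theorem criterion {ω : V d → Bool} {S : Set ℝ} {N0 : ℝ} (hS : S ⊆ Set.Ioc (-N0) N0)
    {D : ℕ → Finset (V d)} {τ κ : ℕ → ℝ} (hτ0 : ∀ k, 0 < τ k) (hτ1 : ∀ k, τ k ≤ 1)
    (hτt : Tendsto τ atTop (𝓝 0)) (hsum : Summable fun k => ((D k).card : ℝ) * τ k)
    (hκ0 : ∀ k, 0 ≤ κ k) (hκ : ∀ k, 2 * d * (D k).card * κ k ≤ τ k ^ 5)
    (hB : ∀ R0 : ℕ, ∀ E ∈ S, ∀ᶠ k in atTop, Q (0 : V d) R0 ⊆ D k ∧ ∀ (u : V d → ℂ) (B : ℝ),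
      (∀ x ∉ Q (0 : V d) R0, hop ω u x = ((E : ℂ) + ((τ k ^ 3 : ℝ) : ℂ) * I) * u x) →
      (∀ x, ‖u x‖ ≤ B) → ∀ y ∉ D k, (∃ x ∈ D k, y ∈ Q x 1) → ‖u y‖ ≤ κ k * B)
    {H : lp (fun _ : V d => ℂ) 2 →L[ℂ] lp (fun _ : V d => ℂ) 2} (hH : IsH ω H)
    (ψ : lp (fun _ : V d => ℂ) 2) (μ : Measure ℝ) [IsFiniteMeasure μ]
    (hμ : ∀ z : ℂ, z.im ≠ 0 → (∫ x, ((x : ℂ) - z)⁻¹ ∂μ) = inner ℂ ψ (Rz H z ψ)) (hSm : MeasurableSet S) :
    ∀ᵐ E ∂(volume.restrict S), μ.rnDeriv volume E = 0 := by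
  set N : ℝ := max (max N0 1) (2 * ‖H‖) with hN
  have hN1 : 1 ≤ N := (le_max_right _ _).trans (le_max_left _ _)
  have hN2 : N0 ≤ N := (le_max_left _ _).trans (le_max_left _ _)
  have hε0 : ∀ k, 0 < τ k ^ 3 := fun k => pow_pos (hτ0 k) 3
  have hε1 : ∀ k, τ k ^ 3 ≤ N := fun k => (pow_le_one₀ (hτ0 k).le (hτ1 k)).trans hN1
  have hεt : Tendsto (fun k => τ k ^ 3) atTop (𝓝 0) := by
    have := hτt.pow 3
    simpa using this
  refine singular_on hH.isSelfAdjoint (N := N)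
    (hS.trans (Set.Ioc_subset_Ioc (by linarith) hN2)) (le_max_right _ _) hε0 hε1 hεt
    (fun ψ δ hδ => fin_dense ψ δ hδ) ?_ ψ hμ
  rintro φ ⟨R0, hφ⟩
  -- Borel-Cantelli
  have hBC : ∀ᵐ E ∂(volume : Measure ℝ), ∀ᶠ k in atTop, E ∉ {E | ¬ NR ω E (D k) (τ k)} := by
    apply ae_eventually_notMem
    have h1 : ∀ k, volume {E | ¬ NR ω E (D k) (τ k)} ≤ ENNReal.ofReal (2 * (((D k).card : ℝ) * τ k)) := by
      intro k
      refine (volume_not_NR ω (D k) (hτ0 k).le).trans (le_of_eq ?_)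
      congr 1; ring
    refine ne_top_of_le_ne_top ?_ (ENNReal.tsum_le_tsum h1)
    have h2 := (hsum.mul_left 2)
    rw [← ENNReal.ofReal_tsum_of_nonneg (fun k => by have := (hτ0 k).le; positivity) h2]
    exact ENNReal.ofReal_ne_top
  filter_upwards [ae_restrict_of_ae (s := S) hBC, ae_restrict_mem hSm] with E hE hES
  have hev : ∀ᶠ k in atTop, gg H φ (τ k ^ 3) E ≤ ENNReal.ofReal (7 * τ k * ‖φ‖ ^ 2) := by
    filter_upwards [hE, hB R0 E hES] with k hNR hk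
    simp only [Set.mem_ofPred_eq, not_not] at hNR
    apply ENNReal.ofReal_le_ofReal
    refine decG hH (hτ0 k) (hτ1 k) (hκ0 k) (hκ k) hNR (fun x hx => hφ x fun hc => hx (hk.1 hc)) ?_
    apply hk.2
    · intro x hx
      have hzim0 : ((E : ℂ) + ((τ k ^ 3 : ℝ) : ℂ) * I).im ≠ 0 := by
        rw [zim]; exact (hε0 k).ne'
      have h := sub_Rz hH.isSelfAdjoint hzim0 φ
      have h2 : (H (Rz H ((E : ℂ) + ((τ k ^ 3 : ℝ) : ℂ) * I) φ)) x
          - ((E : ℂ) + ((τ k ^ 3 : ℝ) : ℂ) * I) * (Rz H ((E : ℂ) + ((τ k ^ 3 : ℝ) : ℂ) * I) φ) x = φ x := by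
        conv_rhs => rw [← h]
        rfl
      rw [← hH]
      rw [hφ x hx] at h2
      linear_combination h2
    · intro x
      exact lp.norm_apply_le_norm (by norm_num) _ x
  have hlim : Tendsto (fun k : ℕ => ENNReal.ofReal (7 * τ k * ‖φ‖ ^ 2)) atTop (𝓝 0) := by
    have h1 : Tendsto (fun k : ℕ => 7 * τ k * ‖φ‖ ^ 2) atTop (𝓝 0) := by
      have := (hτt.const_mul 7).mul_const (‖φ‖ ^ 2)
      simpa using this
    have h2 := (ENNReal.continuous_ofReal.tendsto 0).comp h1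
    rw [ENNReal.ofReal_zero] at h2
    exact h2
  exact tendsto_of_tendsto_of_tendsto_of_le_of_le' tendsto_const_nhds hlim
    (Eventually.of_forall fun _ => zero_le) hev

end Pool.Agent.T9h50.AN
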