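import Pool.Agent.T9h50.AN.Chk

set_option autoImplicit false

/-! Soundness of the check: decay of solutions at a point. -/

namespace Pool.Agent.T9h50.AN

open Finset Complex Pool.Agent.H12R2.And

/-- summation by parts -/
lemma sbp {d : ℕ} {ω : V d → Bool} {D D' : Finset (V d)} {g u : V d → ℂ} (hg : ∀ x ∉ D, g x = 0)
    (hD : ∀ x ∈ D, ∀ y ∈ Q x 1, y ∈ D') :
    ∑ x ∈ D, g x * hop ω u x = ∑ y ∈ D', hop ω g y * u y := by
  classical
  set u' : V d → ℂ := fun y => if y ∈ D' then u y else 0 with hu'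
  have hu0 : ∀ y ∉ D', u' y = 0 := fun y hy => by simp [hu', hy]
  have hu1 : ∀ y ∈ D', u' y = u y := fun y hy => by simp [hu', hy]
  have h1 : ∀ x ∈ D, hop ω u x = ∑ y ∈ D', (ker ω x y : ℂ) * u y := by
    intro x hx
    have h2 : hop ω u x = hop ω u' x := by
      unfold hop
      rw [hu1 x (hD x hx x (self_mem_Q x 1))]
      congr 2
      refine Finset.sum_congr rfl fun i _ => ?_
      rw [hu1 _ (hD x hx _ (add_ee_mem x i)), hu1 _ (hD x hx _ (sub_ee_mem x i))]
    rw [h2, hop_eq_ker hu0]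
    exact Finset.sum_congr rfl fun y hy => by rw [hu1 y hy]
  rw [Finset.sum_congr rfl fun x hx => by rw [h1 x hx, Finset.mul_sum], Finset.sum_comm]
  refine Finset.sum_congr rfl fun y _ => ?_
  rw [hop_eq_ker hg y, Finset.sum_mul]
  refine Finset.sum_congr rfl fun x _ => ?_
  rw [ker_symm ω x y]; ring

/-- reindexing of sums over squares -/
lemma sum_Q2 (x0 : V 2) (R : ℕ) (f : ℤ → ℤ → ℝ) :
    ∑ y ∈ Q x0 (R + 1), f (y 0 - x0 0 + (R + 1)) (y 1 - x0 1 + (R + 1)) =
      ∑ i ∈ range (2 * R + 3), ∑ j ∈ range (2 * R + 3), f i j := by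
  rw [← Finset.sum_product']
  refine Finset.sum_nbij' (fun y => ((y 0 - x0 0 + (R + 1)).toNat, (y 1 - x0 1 + (R + 1)).toNat))
    (fun p => ![x0 0 + p.1 - (R + 1), x0 1 + p.2 - (R + 1)]) ?_ ?_ ?_ ?_ ?_
  · intro y hy
    rw [mem_Q] at hy
    have h0 := abs_le.1 (hy 0)
    have h1 := abs_le.1 (hy 1)
    push_cast at h0 h1
    simp only [Finset.mem_product, Finset.mem_range]
    constructor <;> omega
  · intro p hp
    simp only [Finset.mem_product, Finset.mem_range] at hp
    rw [mem_Q]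
    intro i
    fin_cases i
    · simp only [Fin.zero_eta, Fin.isValue, Matrix.cons_val_zero]
      rw [abs_le]; push_cast; constructor <;> omega
    · simp only [Fin.mk_one, Fin.isValue, Matrix.cons_val_one]
      rw [abs_le]; push_cast; constructor <;> omega
  · intro y hy
    rw [mem_Q] at hy
    have h0 := abs_le.1 (hy 0)
    have h1 := abs_le.1 (hy 1)
    push_cast at h0 h1
    funext i
    fin_cases i
    · change x0 0 + (((y 0 - x0 0 + (R + 1)).toNat : ℕ) : ℤ) - (R + 1) = y 0; omega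
    · change x0 1 + (((y 1 - x0 1 + (R + 1)).toNat : ℕ) : ℤ) - (R + 1) = y 1; omega
  · intro p hp
    simp only [Finset.mem_product, Finset.mem_range] at hp
    simp only [Matrix.cons_val_zero, Matrix.cons_val_one]
    ext <;> simp <;> omega
  · intro y hy
    rw [mem_Q] at hy
    have h0 := abs_le.1 (hy 0)
    have h1 := abs_le.1 (hy 1)
    push_cast at h0 h1
    simp only
    congr 1 <;> omega

lemma chkAll_get {N al be bits cp cm dn R m n : ℕ} : ∀ (Ts : List ℕ) (b0 : ℕ),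
    chkAll N al be bits cp cm dn R m n Ts b0 = true → ∀ i (hi : i < Ts.length),
      chk N al be bits cp cm dn R m n (Ts[i]) (b0 + i) = true := by
  intro Ts
  induction Ts with
  | nil => intro b0 _ i hi; simp at hi
  | cons T Ts ih =>
      intro b0 h i hi
      have h' : (chk N al be bits cp cm dn R m n T b0 &&
        chkAll N al be bits cp cm dn R m n Ts (Nat.succ b0)) = true := h
      rw [Bool.and_eq_true] at h'
      cases i with
      | zero => exact h'.1
      | succ i =>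
          have := ih (Nat.succ b0) h'.2 i (by simpa using hi)
          rw [show b0 + (i + 1) = Nat.succ b0 + i by omega]
          exact this

/-- the value of the potential coefficient -/
lemma patt_eq (w : Wd) (y0 : V 2) (hN : 1 ≤ w.N) (i j : ℕ) :
    patt w (![y0 0 + i, y0 1 + j]) = Nat.beq (Nat.mod (Nat.shiftRight w.bits
        (Nat.mod (cl w y0 + (w.al * i + w.be * j)) w.N)) 2) 1 := by
  unfold patt
  have : cl w (![y0 0 + i, y0 1 + j]) = Nat.mod (cl w y0 + (w.al * i + w.be * j)) w.N := by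
    change _ = (cl w y0 + (w.al * i + w.be * j)) % w.N
    unfold cl
    simp only [Matrix.cons_val_zero, Matrix.cons_val_one]
    have hN' : (w.N : ℤ) ≠ 0 := by omega
    have h1 : 0 ≤ ((w.al : ℤ) * y0 0 + (w.be : ℤ) * y0 1) % (w.N : ℤ) := Int.emod_nonneg _ hN'
    set t := ((w.al : ℤ) * y0 0 + (w.be : ℤ) * y0 1) % (w.N : ℤ) with ht
    have h2 : ((w.al : ℤ) * (y0 0 + i) + (w.be : ℤ) * (y0 1 + j)) % (w.N : ℤ)
        = (t + ((w.al * i + w.be * j : ℕ) : ℤ)) % (w.N : ℤ) := by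
      rw [ht, Int.emod_add_emod]
      congr 1
      push_cast; ring
    rw [h2]
    have h3 : t + ((w.al * i + w.be * j : ℕ) : ℤ) = ((t.toNat + (w.al * i + w.be * j) : ℕ) : ℤ) := by
      push_cast
      rw [Int.toNat_of_nonneg h1]
    rw [h3, ← Int.natCast_mod, Int.toNat_natCast]
  rw [this]

/-- decay at a point in a periodic medium, for energies in the window -/
theorem decay {w : Wd} {Ts : List ℕ} (hok : ok w Ts = true) {ω : V 2 → Bool} {x0 : V 2}
    (hω : ∀ y ∈ Q x0 w.R, ω y = patt w y) {z : ℂ} (hz : ‖10000 * z - w.e‖ ≤ w.dn) {u : V 2 → ℂ}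
    {B : ℝ} (hu : ∀ y ∈ Q x0 w.R, hop ω u y = z * u y) (hB : ∀ y ∈ Q x0 (w.R + 1), ‖u y‖ ≤ B) :
    ‖u x0‖ ≤ 0.99 * B := by
  have hB0 : 0 ≤ B := (norm_nonneg _).trans (hB x0 (self_mem_Q _ _))
  unfold ok at hok
  simp only [Bool.and_eq_true, Nat.ble_eq, Nat.beq_eq] at hok
  obtain ⟨⟨⟨he, hlen⟩, hN⟩, hall⟩ := hok
  set R := w.R with hR
  set y0 : V 2 := fun i => x0 i - (R + 1) with hy0
  -- the table
  have hcl : cl w y0 < Ts.length := by
    rw [hlen]
    unfold cl
    have hN' : (0 : ℤ) < (w.N : ℤ) := by omega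
    have h1 := Int.emod_lt_of_pos ((w.al : ℤ) * y0 0 + (w.be : ℤ) * y0 1) hN'
    have h2 := Int.emod_nonneg ((w.al : ℤ) * y0 0 + (w.be : ℤ) * y0 1) hN'.ne'
    omega
  have hck := chkAll_get Ts 0 hall _ hcl
  rw [zero_add] at hck
  set T := Ts[cl w y0] with hT
  set m := 2 * R + 1 with hm
  set g : V 2 → ℤ := fun y => gz m T (y 0 - x0 0 + (R + 1)) (y 1 - x0 1 + (R + 1)) with hg
  set F : V 2 → ℤ := fun y => rz m T R (if patt w y then 50000 - w.e else 30000 - w.e)
    (y 0 - x0 0 + (R + 1)) (y 1 - x0 1 + (R + 1)) with hF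
  have hg0 : ∀ y ∉ Q x0 R, g y = 0 := by
    intro y hy
    simp only [hg]
    apply gz_out
    intro h
    apply hy
    rw [mem_Q]
    intro i
    fin_cases i
    · simp only [Fin.zero_eta, Fin.isValue]; rw [abs_le]; push_cast [hm] at h; constructor <;> omega
    · simp only [Fin.mk_one, Fin.isValue]; rw [abs_le]; push_cast [hm] at h; constructor <;> omega
  -- the sum
  have hsum : ∑ y ∈ Q x0 (R + 1), ((|F y| : ℤ) + (w.dn : ℝ) * (|g y| : ℤ)) ≤ 2595225600 := by
    have h1 : ∀ y ∈ Q x0 (R + 1), (((|F y| : ℤ) : ℝ) + (w.dn : ℝ) * ((|g y| : ℤ) : ℝ)) =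
        (fun i j : ℤ => (((|rz m T R (if Nat.beq (Nat.mod (Nat.shiftRight w.bits
        (Nat.mod (cl w y0 + (w.al * i.toNat + w.be * j.toNat)) w.N)) 2) 1 then 50000 - w.e
          else 30000 - w.e) i j| : ℤ) : ℝ)
          + (w.dn : ℝ) * ((|gz m T i j| : ℤ) : ℝ)))
          (y 0 - x0 0 + (R + 1)) (y 1 - x0 1 + (R + 1)) := by
      intro y hy
      rw [mem_Q] at hy
      have h0 := abs_le.1 (hy 0)
      have h1 := abs_le.1 (hy 1)
      push_cast at h0 h1
      simp only [hF, hg]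
      have h3 := patt_eq w y0 hN (y 0 - x0 0 + (R + 1)).toNat (y 1 - x0 1 + (R + 1)).toNat
      have h4 : ![y0 0 + (((y 0 - x0 0 + (R + 1)).toNat : ℕ) : ℤ),
          y0 1 + (((y 1 - x0 1 + (R + 1)).toNat : ℕ) : ℤ)] = y := by
        funext i
        fin_cases i
        · change y0 0 + (((y 0 - x0 0 + (R + 1)).toNat : ℕ) : ℤ) = y 0
          simp only [hy0]; omega
        · change y0 1 + (((y 1 - x0 1 + (R + 1)).toNat : ℕ) : ℤ) = y 1
          simp only [hy0]; omega
      rw [h4] at h3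
      rw [h3]
    rw [Finset.sum_congr rfl h1, sum_Q2 x0 R (fun i j : ℤ => (((|rz m T R (if Nat.beq (Nat.mod (Nat.shiftRight w.bits
        (Nat.mod (cl w y0 + (w.al * i.toNat + w.be * j.toNat)) w.N)) 2) 1 then 50000 - w.e
          else 30000 - w.e) i j| : ℤ) : ℝ)
          + (w.dn : ℝ) * ((|gz m T i j| : ℤ) : ℝ)))]
    have h2 : ∀ i ∈ range (2 * R + 3), ∀ j ∈ range (2 * R + 3),
        (((|rz m T R (if Nat.beq (Nat.mod (Nat.shiftRight w.bits
        (Nat.mod (cl w y0 + (w.al * ((i : ℕ) : ℤ).toNat + w.be * ((j : ℕ) : ℤ).toNat)) w.N)) 2) 1 then 50000 - w.e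
          else 30000 - w.e) i j| : ℤ) : ℝ)
          + (w.dn : ℝ) * ((|gz m T i j| : ℤ) : ℝ)) =
        ((tm w.N w.al w.be w.bits (70000 - w.e) (50000 - w.e) w.dn R m T (cl w y0) i j : ℕ) : ℝ) := by
      intro i _ j _
      have h3 := tm_eq w.N w.al w.be w.bits w.e w.dn R m T (cl w y0) i j he
      rw [← Int.cast_natCast (R := ℝ) (tm _ _ _ _ _ _ _ _ _ _ _ _ _), h3]
      push_cast
      simp only [Int.toNat_natCast]
    rw [Finset.sum_congr rfl fun i hi => Finset.sum_congr rfl fun j hj => h2 i hi j hj]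
    unfold chk at hck
    rw [Nat.ble_eq] at hck
    simp only [sumTo_eq] at hck
    exact_mod_cast hck
  -- summation by parts
  set gc : V 2 → ℂ := fun y => (g y : ℂ) with hgc
  have hgc0 : ∀ y ∉ Q x0 R, gc y = 0 := fun y hy => by simp [hgc, hg0 y hy]
  have hDD : ∀ x ∈ Q x0 R, ∀ y ∈ Q x 1, y ∈ Q x0 (R + 1) := fun x hx y hy => Q_trans hx hy
  have hsbp := sbp (ω := ω) (u := u) hgc0 hDD
  have hsub : Q x0 R ⊆ Q x0 (R + 1) := Q_mono (by omega)
  have h5 : ∑ x ∈ Q x0 R, gc x * hop ω u x = ∑ y ∈ Q x0 (R + 1), z * gc y * u y := by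
    rw [← Finset.sum_subset hsub]
    · refine Finset.sum_congr rfl fun x hx => ?_
      rw [hu x hx]; ring
    · intro y _ hy
      rw [hgc0 y hy]; ring
  -- the identity at every site
  have hid : ∀ y ∈ Q x0 (R + 1), (F y : ℂ) =
      (if y = x0 then 2621440000 else 0) - (10000 * hop ω gc y - w.e * gc y) := by
    intro y hy
    have hop2 : hop ω gc y = (if ω y then (5 : ℂ) else 3) * gc y
        - (gc (y + ee 0) + gc (y - ee 0) + gc (y + ee 1) + gc (y - ee 1)) := by
      unfold hop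
      rw [Fin.sum_univ_two]
      split_ifs <;> ring
    have e1 : gc (y + ee 0) = ((gz m T (y 0 - x0 0 + (R + 1) + 1) (y 1 - x0 1 + (R + 1)) : ℤ) : ℂ) := by
      simp only [hgc, hg, ee, Pi.add_apply, Pi.single_apply]
      congr 2
      · simp; ring
      · simp
    have e2 : gc (y - ee 0) = ((gz m T (y 0 - x0 0 + (R + 1) - 1) (y 1 - x0 1 + (R + 1)) : ℤ) : ℂ) := by
      simp only [hgc, hg, ee, Pi.sub_apply, Pi.single_apply]
      congr 2
      · simp; ring
      · simp
    have e3 : gc (y + ee 1) = ((gz m T (y 0 - x0 0 + (R + 1)) (y 1 - x0 1 + (R + 1) + 1) : ℤ) : ℂ) := by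
      simp only [hgc, hg, ee, Pi.add_apply, Pi.single_apply]
      congr 2
      · simp
      · simp; ring
    have e4 : gc (y - ee 1) = ((gz m T (y 0 - x0 0 + (R + 1)) (y 1 - x0 1 + (R + 1) - 1) : ℤ) : ℂ) := by
      simp only [hgc, hg, ee, Pi.sub_apply, Pi.single_apply]
      congr 2
      · simp
      · simp; ring
    have e5 : gc y = ((gz m T (y 0 - x0 0 + (R + 1)) (y 1 - x0 1 + (R + 1)) : ℤ) : ℂ) := rfl
    have e6 : (y 0 - x0 0 + (R + 1 : ℤ) = R + 1 ∧ y 1 - x0 1 + (R + 1 : ℤ) = R + 1) ↔ y = x0 := by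
      constructor
      · rintro ⟨h1, h2⟩
        funext i
        fin_cases i
        · simp only [Fin.zero_eta, Fin.isValue]; omega
        · simp only [Fin.mk_one, Fin.isValue]; omega
      · rintro rfl; constructor <;> ring
    have hc : (if ω y then (5 : ℂ) else 3) * gc y = (if patt w y then (5 : ℂ) else 3) * gc y := by
      by_cases hy' : y ∈ Q x0 R
      · rw [hω y hy']
      · rw [hgc0 y hy', mul_zero, mul_zero]
    rw [hop2, hc, e1, e2, e3, e4, e5]
    simp only [hF, rz]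
    simp only [e6]
    split_ifs <;> push_cast <;> ring
  have h6 : (2621440000 : ℂ) * u x0 = ∑ y ∈ Q x0 (R + 1), ((F y : ℂ) + (10000 * z - w.e) * gc y) * u y := by
    have h7 : ∑ y ∈ Q x0 (R + 1), ((F y : ℂ) + (10000 * z - w.e) * gc y) * u y =
        ∑ y ∈ Q x0 (R + 1), ((if y = x0 then 2621440000 * u x0 else 0) - 10000 * (hop ω gc y * u y)
          + 10000 * (z * gc y * u y)) := by
      refine Finset.sum_congr rfl fun y hy => ?_
      rw [hid y hy]
      by_cases h : y = x0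
      · subst h; simp; ring
      · simp [h]; ring
    rw [h7, Finset.sum_add_distrib, Finset.sum_sub_distrib, ← Finset.mul_sum, ← Finset.mul_sum,
      ← hsbp, h5, Finset.sum_ite_eq', if_pos (self_mem_Q _ _)]
    ring
  have h8 : 2621440000 * ‖u x0‖ ≤ 2595225600 * B := by
    calc 2621440000 * ‖u x0‖ = ‖(2621440000 : ℂ) * u x0‖ := by
          rw [norm_mul]; norm_num
      _ = ‖∑ y ∈ Q x0 (R + 1), ((F y : ℂ) + (10000 * z - w.e) * gc y) * u y‖ := by rw [h6]
      _ ≤ ∑ y ∈ Q x0 (R + 1), ‖((F y : ℂ) + (10000 * z - w.e) * gc y) * u y‖ := norm_sum_le _ _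
      _ ≤ ∑ y ∈ Q x0 (R + 1), (((|F y| : ℤ) : ℝ) + (w.dn : ℝ) * ((|g y| : ℤ) : ℝ)) * B := by
          refine Finset.sum_le_sum fun y hy => ?_
          rw [norm_mul]
          have a1 : ‖(F y : ℂ)‖ = ((|F y| : ℤ) : ℝ) := by
            rw [Complex.norm_intCast]; push_cast; rfl
          have a2 : ‖gc y‖ = ((|g y| : ℤ) : ℝ) := by
            simp only [hgc]
            rw [Complex.norm_intCast]; push_cast; rfl
          have a3 : ‖(F y : ℂ) + (10000 * z - w.e) * gc y‖ ≤
              ((|F y| : ℤ) : ℝ) + (w.dn : ℝ) * ((|g y| : ℤ) : ℝ) := by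
            refine (norm_add_le _ _).trans ?_
            rw [norm_mul, a1, a2]
            gcongr
          have a4 := hB y hy
          have a5 : 0 ≤ ((|F y| : ℤ) : ℝ) + (w.dn : ℝ) * ((|g y| : ℤ) : ℝ) :=
            (norm_nonneg _).trans a3
          gcongr
      _ = (∑ y ∈ Q x0 (R + 1), (((|F y| : ℤ) : ℝ) + (w.dn : ℝ) * ((|g y| : ℤ) : ℝ))) * B := by
          rw [Finset.sum_mul]
      _ ≤ 2595225600 * B := by gcongr
  linarith

end Pool.Agent.T9h50.AN
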