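import Pool.Agent.T9h50.AN.Wall

set_option autoImplicit false

/-! Inserting walls at sparse scales. -/

namespace Pool.Agent.T9h50.AN

open Complex MeasureTheory Filter Pool.Agent.H12R2.And
open scoped ENNReal Topology InnerProductSpace

lemma thick (n : ℕ) : ((26 * mm n + 1 : ℕ) : ℝ) ≤ 200000 * Real.log (n + 2) := by
  have hl2 : (0.6931 : ℝ) < Real.log 2 := by
    have := Real.log_two_gt_d9; linarith
  have hn : (0 : ℝ) < (n : ℝ) + 2 := by positivity
  have h1 : (Nat.log 2 (n + 2) : ℝ) * Real.log 2 ≤ Real.log (n + 2) := by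
    have h2 : 2 ^ (Nat.log 2 (n + 2)) ≤ n + 2 := Nat.pow_log_le_self 2 (by omega)
    have h3 : ((2 : ℝ) ^ (Nat.log 2 (n + 2))) ≤ (n : ℝ) + 2 := by exact_mod_cast h2
    rw [← Real.log_pow]
    exact Real.log_le_log (by positivity) h3
  have h4 : Real.log 2 ≤ Real.log (n + 2) := by
    apply Real.log_le_log (by norm_num)
    have : (0 : ℝ) ≤ n := Nat.cast_nonneg n
    linarith
  have h5 : (Nat.log 2 (n + 2) : ℝ) ≤ Real.log (n + 2) / 0.6931 := by
    rw [le_div_iff₀ (by norm_num)]
    refine le_trans ?_ h1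
    gcongr
  have h6 : (1 : ℝ) ≤ Real.log (n + 2) / 0.6931 := by
    rw [le_div_iff₀ (by norm_num)]; linarith
  rw [mm_eq]
  push_cast
  have h7 : (1 : ℝ) ≤ 2 * Real.log (n + 2) := by linarith
  have h8 : Real.log (n + 2) / 0.6931 ≤ 1.4429 * Real.log (n + 2) := by
    rw [div_le_iff₀ (by norm_num)]; linarith
  linarith

/-- an increasing sequence of scales in `s` -/
lemma exists_scales {s : Set ℕ} (hs : s.Infinite) : ∃ g : ℕ → ℕ, (∀ j, g j ∈ s) ∧ (∀ j, j ≤ g j) ∧
    ∀ i j, i < j → g i + 26 * mm (g i) + 1 < g j := by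
  have h1 : ∀ a : ℕ, ∃ b ∈ s, a < b := fun a => hs.exists_gt a
  choose F hF1 hF2 using h1
  set g : ℕ → ℕ := fun j => Nat.rec (F 0) (fun _ p => F (p + 26 * mm p + 1)) j with hg
  have hgs : ∀ j, g (j + 1) = F (g j + 26 * mm (g j) + 1) := fun j => rfl
  have hstep : ∀ j, g j + 26 * mm (g j) + 1 < g (j + 1) := fun j => by rw [hgs]; exact hF2 _
  have hmono : StrictMono g := strictMono_nat_of_lt_succ fun j => by have := hstep j; omega
  refine ⟨g, ?_, fun j => hmono.id_le j, ?_⟩
  · intro j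
    cases j with
    | zero => exact hF1 _
    | succ j => rw [hgs]; exact hF1 _
  · intro i j hij
    exact lt_of_lt_of_le (hstep i) (hmono.monotone hij)

/-- freezing the potential on a set of thin annuli at prescribed scales creates walls of every
medium at arbitrarily large scales -/
theorem exists_frozen {s : Set ℕ} (hs : s.Infinite) :
    ∃ (F : Set (V 2)) (p : V 2 → Bool), (∀ x ∈ F, ∃ n ∈ s, InA 0 n x) ∧
      ∀ ω : V 2 → Bool, (∀ x ∈ F, ω x = p x) →
        ∀ k N : ℕ, ∃ (n : ℕ) (c : V 2), N ≤ n ∧ Q (0 : V 2) N ⊆ Q c n ∧ HasWall ω k n c := by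
  classical
  obtain ⟨g, hgs, hgj, hg⟩ := exists_scales hs
  have hdisj : ∀ (i j : ℕ) (x : V 2), InA 0 (g i) x → InA 0 (g j) x → i = j := by
    intro i j x hi hj
    rcases lt_trichotomy i j with h | h | h
    · have h1 := hg i j h
      have h2 : g i + 26 * mm (g i) + 1 ≤ g j := h1.le
      exact absurd (Q_mono h2 hi.1) hj.2
    · exact h
    · have h1 := hg j i h
      have h2 : g j + 26 * mm (g j) + 1 ≤ g i := h1.le
      exact absurd (Q_mono h2 hj.1) hi.2
  refine ⟨{x | ∃ j, InA 0 (g j) x}, fun x =>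
    if h : ∃ j, InA 0 (g j) x then (meda (Nat.unpair h.choose).1).P x else true,
    fun x ⟨j, hj⟩ => ⟨g j, hgs j, hj⟩, ?_⟩
  intro ω hω k N
  set j := Nat.pair k N with hj
  have hjN : N ≤ g j := (Nat.right_le_pair k N).trans (hgj j)
  refine ⟨g j, 0, hjN, Q_mono hjN, 0, ?_⟩
  intro x hx
  rw [sub_zero]
  have hex : ∃ j, InA 0 (g j) x := ⟨j, hx⟩
  have e1 : hex.choose = j := hdisj _ _ x hex.choose_spec hx
  have h1 := hω x hex
  simp only [] at h1
  rw [h1, dif_pos hex, e1, hj, Nat.unpair_pair]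

/-- the sets of configurations with a wall are open and dense, so walls of all media at arbitrarily
large scales are generic -/
theorem generic_walls : ∀ᶠ ω in residual (V 2 → Bool),
    ∀ k N : ℕ, ∃ (n : ℕ) (c : V 2), N ≤ n ∧ Q (0 : V 2) N ⊆ Q c n ∧ HasWall ω k n c := by
  classical
  rw [eventually_countable_forall]
  intro k
  rw [eventually_countable_forall]
  intro N
  set U : Set (V 2 → Bool) := ⋃ n ∈ {n : ℕ | N ≤ n},
    {ω | ∀ x, InA 0 n x → ω x = (meda k).P x} with hU
  have hopen : IsOpen U := by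
    refine isOpen_biUnion fun n _ => ?_
    have : {ω : V 2 → Bool | ∀ x, InA 0 n x → ω x = (meda k).P x} =
        ⋂ x ∈ Q (0 : V 2) (n + 26 * mm n + 1), {ω | x ∉ Q (0 : V 2) n → ω x = (meda k).P x} := by
      ext ω
      simp only [Set.mem_ofPred_eq, Set.mem_iInter, InA]
      exact ⟨fun h x h1 h2 => h x ⟨h1, h2⟩, fun h x hx => h x hx.1 hx.2⟩
    rw [this]
    refine isOpen_biInter_finset fun x _ => ?_
    by_cases hx : x ∈ Q (0 : V 2) n
    · have : {ω : V 2 → Bool | x ∉ Q (0 : V 2) n → ω x = (meda k).P x} = Set.univ := by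
        ext ω; simp [hx]
      rw [this]; exact isOpen_univ
    · have : {ω : V 2 → Bool | x ∉ Q (0 : V 2) n → ω x = (meda k).P x} =
          (fun ω : V 2 → Bool => ω x) ⁻¹' {(meda k).P x} := by
        ext ω; simp [hx]
      rw [this]
      exact (isOpen_discrete _).preimage (continuous_apply x)
  have hdense : Dense U := by
    intro ω
    rw [mem_closure_iff_nhds]
    intro W hW
    rw [nhds_pi, Filter.mem_pi'] at hW
    obtain ⟨I, t, ht, hsub⟩ := hW
    obtain ⟨R0, hR0⟩ : ∃ R0 : ℕ, ∀ x ∈ I, x ∈ Q (0 : V 2) R0 := by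
      refine ⟨∑ x ∈ I, ∑ i, (x i).natAbs, fun x hx => ?_⟩
      rw [mem_Q]
      intro j
      have h1 : (x j).natAbs ≤ ∑ i, (x i).natAbs :=
        Finset.single_le_sum (f := fun i => (x i).natAbs) (fun _ _ => Nat.zero_le _) (Finset.mem_univ j)
      have h2 : ∑ i, (x i).natAbs ≤ ∑ x ∈ I, ∑ i, (x i).natAbs :=
        Finset.single_le_sum (f := fun x : V 2 => ∑ i, (x i).natAbs) (fun _ _ => Nat.zero_le _) hx
      have h3 : |x j - (0 : V 2) j| = ((x j).natAbs : ℤ) := by simp
      rw [h3]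
      exact_mod_cast h1.trans h2
    set n : ℕ := max N R0 with hn
    set ω1 : V 2 → Bool := fun x => if x ∈ Q (0 : V 2) n then ω x else (meda k).P x with hω1
    refine ⟨ω1, hsub ?_, ?_⟩
    · intro x hx
      have : ω1 x = ω x := by
        simp only [hω1]
        rw [if_pos (Q_mono (le_max_right _ _) (hR0 x hx))]
      rw [this]
      exact mem_of_mem_nhds (ht x)
    · rw [hU, Set.mem_iUnion₂]
      have hNn : N ≤ n := le_max_left _ _
      refine ⟨n, hNn, ?_⟩
      intro x hx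
      simp only [hω1]
      rw [if_neg hx.2]
  have hres := residual_of_dense_open hopen hdense
  filter_upwards [hres] with ω hω
  rw [hU, Set.mem_iUnion₂] at hω
  obtain ⟨n, hn, h⟩ := hω
  refine ⟨n, 0, hn, Q_mono hn, 0, fun x hx => ?_⟩
  rw [sub_zero]
  exact h x hx

end Pool.Agent.T9h50.AN
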