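import Pool.Agent.T9h50.AN.Sparse

set_option autoImplicit false

/-! Stationary random sets of frozen sites of small density. -/

namespace Pool.Agent.T9h50.AN

open Complex MeasureTheory Filter Pool.Agent.H12R2.And
open scoped ENNReal Topology

/-! periodicity of the media -/

lemma N_dvd : ∀ k : ℕ, (wdt k).N ∣ 1320
  | 0 => by decide
  | 1 => by decide
  | 2 => by decide
  | 3 => by decide
  | 4 => by decide
  | 5 => by decide
  | 6 => by decide
  | 7 => by decide
  | 8 => by decide
  | 9 => by decide
  | 10 => by decide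
  | 11 => by decide
  | 12 => by decide
  | 13 => by decide
  | 14 => by decide
  | 15 => by decide
  | 16 => by decide
  | 17 => by decide
  | 18 => by decide
  | 19 => by decide
  | 20 => by decide
  | 21 => by decide
  | 22 => by decide
  | 23 => by decide
  | 24 => by decide
  | 25 => by decide
  | 26 => by decide
  | 27 => by decide
  | 28 => by decide
  | (_ + 29) => by change wd29.N ∣ 1320; decide

lemma med_per (k : ℕ) (x v : V 2) : (med k).P (x + (1320 : ℤ) • v) = (med k).P x := by
  cases k with
  | zero => rfl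
  | succ k =>
      change patt (wdt k) _ = patt (wdt k) _
      unfold patt
      have : cl (wdt k) (x + (1320 : ℤ) • v) = cl (wdt k) x := by
        unfold cl
        obtain ⟨c, hc⟩ := N_dvd k
        have hc' : (1320 : ℤ) = ((wdt k).N : ℤ) * c := by exact_mod_cast hc
        have e1 : ((wdt k).al : ℤ) * (x + (1320 : ℤ) • v) 0 + ((wdt k).be : ℤ) * (x + (1320 : ℤ) • v) 1
            = ((wdt k).al : ℤ) * x 0 + ((wdt k).be : ℤ) * x 1
              + ((wdt k).N : ℤ) * (c * (((wdt k).al : ℤ) * v 0 + ((wdt k).be : ℤ) * v 1)) := by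
          simp only [Pi.add_apply, Pi.smul_apply, smul_eq_mul]
          rw [hc']; ring
        rw [e1, Int.add_mul_emod_self_left]
      rw [this]

lemma meda_per (k : ℕ) (x v : V 2) : (meda k).P (x + (1320 : ℤ) • v) = (meda k).P x := by
  unfold meda
  split_ifs
  · exact med_per _ x v
  · change (!((med (k / 2)).P (x + (1320 : ℤ) • v))) = (!((med (k / 2)).P x))
    rw [med_per]

/-! the random shifts -/

/-- thickness of a wall -/
def th (n : ℕ) : ℕ := 26 * mm n + 1

/-- side of the cells -/
def Nn (n : ℕ) : ℕ := 2 * n + 1 + th n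

/-- the moduli of the random shifts -/
def KK (nf : ℕ → ℕ) : Option ℕ → ℕ
  | none => 1320
  | some j => Nn (nf j)

instance (nf : ℕ → ℕ) (p : Option ℕ) : NeZero (KK nf p) := ⟨by
  cases p with
  | none => change (1320 : ℕ) ≠ 0; norm_num
  | some j => change 2 * nf j + 1 + th (nf j) ≠ 0; omega⟩

/-- the space of the random shifts -/
abbrev XS (nf : ℕ → ℕ) := ∀ p : Option ℕ × Fin 2, ZMod (KK nf p.1)

/-- uniform distribution on `ZMod K` -/
noncomputable def un (K : ℕ) [NeZero K] : Measure (ZMod K) := (PMF.uniformOfFintype (ZMod K)).toMeasure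

instance (K : ℕ) [NeZero K] : IsProbabilityMeasure (un K) := by unfold un; infer_instance

lemma un_map {K : ℕ} [NeZero K] (c : ZMod K) : (un K).map (fun z => z - c) = un K := by
  have hm : Measurable (fun z : ZMod K => z - c) := measurable_of_finite _
  refine Measure.ext_of_singleton fun x => ?_
  rw [Measure.map_apply hm (measurableSet_singleton x)]
  have : (fun z : ZMod K => z - c) ⁻¹' {x} = {x + c} := by
    ext z
    simp only [Set.mem_preimage, Set.mem_singleton_iff]
    exact sub_eq_iff_eq_add
  rw [this]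
  unfold un
  rw [PMF.toMeasure_apply_singleton _ _ (measurableSet_singleton _),
    PMF.toMeasure_apply_singleton _ _ (measurableSet_singleton _),
    PMF.uniformOfFintype_apply, PMF.uniformOfFintype_apply]

/-- the law of the random shifts -/
noncomputable def mX (nf : ℕ → ℕ) : Measure (XS nf) := Measure.infinitePi fun p => un (KK nf p.1)

instance (nf : ℕ → ℕ) : IsProbabilityMeasure (mX nf) := by unfold mX; infer_instance

/-- the action of the translations -/
def sh {nf : ℕ → ℕ} (a : V 2) (t : XS nf) : XS nf := fun p => t p - ((a p.2 : ℤ) : ZMod (KK nf p.1))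

lemma measurable_sh {nf : ℕ → ℕ} (a : V 2) : Measurable (sh (nf := nf) a) := by
  refine measurable_pi_iff.2 fun p => ?_
  exact (measurable_of_finite (fun z : ZMod (KK nf p.1) => z - ((a p.2 : ℤ) : ZMod (KK nf p.1)))).comp
    (measurable_pi_apply p)

lemma map_sh {nf : ℕ → ℕ} (a : V 2) : (mX nf).map (sh a) = mX nf := by
  have h := Measure.infinitePi_map_pi (μ := fun p : Option ℕ × Fin 2 => un (KK nf p.1))
    (f := fun p z => z - ((a p.2 : ℤ) : ZMod (KK nf p.1))) (fun p => measurable_of_finite _)
  simp only [un_map] at h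
  exact h

/-- the site `x` is in a wall of the `j`-th scale -/
def InW {nf : ℕ → ℕ} (j : ℕ) (t : XS nf) (x : V 2) : Prop :=
  ∃ i : Fin 2, 2 * nf j + 1 ≤ (((x i : ℤ) : ZMod (KK nf (some j))) - t (some j, i)).val

lemma InW_sh {nf : ℕ → ℕ} (j : ℕ) (t : XS nf) (a x : V 2) : InW j (sh a t) x ↔ InW j t (x + a) := by
  unfold InW sh
  refine exists_congr fun i => ?_
  have : (((x i : ℤ) : ZMod (KK nf (some j))) - (t (some j, i) - ((a i : ℤ) : ZMod (KK nf (some j)))))
      = ((((x + a) i : ℤ) : ZMod (KK nf (some j))) - t (some j, i)) := by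
    rw [Pi.add_apply]; push_cast; ring
  rw [this]

/-- the phase of the media -/
def ph {nf : ℕ → ℕ} (t : XS nf) : V 2 := fun i => ((t (none, i)).val : ℤ)

lemma ph_sh {nf : ℕ → ℕ} (t : XS nf) (a : V 2) : ∃ v : V 2, ph (sh a t) = ph t - a + (1320 : ℤ) • v := by
  have h : ∀ i : Fin 2, ∃ v : ℤ, ph (sh a t) i = ph t i - a i + 1320 * v := by
    intro i
    have h1 : ((ph (sh a t) i : ℤ) : ZMod (KK nf none)) = ((ph t i - a i : ℤ) : ZMod (KK nf none)) := by
      unfold ph
      push_cast
      rw [ZMod.natCast_zmod_val, ZMod.natCast_zmod_val]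
      rfl
    rw [ZMod.intCast_eq_intCast_iff] at h1
    obtain ⟨v, hv⟩ := h1.symm.dvd
    refine ⟨v, ?_⟩
    have : ((KK nf none : ℕ) : ℤ) = 1320 := rfl
    rw [this] at hv
    linarith
  choose v hv using h
  refine ⟨v, ?_⟩
  funext i
  rw [hv i]
  simp [smul_eq_mul]

lemma med_ph_sh {nf : ℕ → ℕ} (k : ℕ) (t : XS nf) (a x : V 2) :
    (meda k).P (x - ph (sh a t)) = (meda k).P (x + a - ph t) := by
  obtain ⟨v, hv⟩ := ph_sh t a
  have : x - ph (sh a t) = (x + a - ph t) + (1320 : ℤ) • (-v) := by
    rw [hv, smul_neg]; abel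
  rw [this, meda_per]

open Classical in
/-- a witness of a property of integers -/
noncomputable def pick (p : ℕ → Prop) : Option ℕ := if h : ∃ j, p j then some h.choose else none

/-- the wall of scale `j` is the largest at `x` -/
def Top {nf : ℕ → ℕ} (j : ℕ) (t : XS nf) (x : V 2) : Prop :=
  InW j t x ∧ ∀ j', j < j' → ¬ InW j' t x

lemma Top.unique {nf : ℕ → ℕ} {i j : ℕ} {t : XS nf} {x : V 2} (hi : Top i t x) (hj : Top j t x) :
    i = j := by
  rcases lt_trichotomy i j with h | h | h
  · exact absurd hj.1 (hi.2 j h)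
  · exact h
  · exact absurd hi.1 (hj.2 i h)

/-- the frozen sites and their values -/
noncomputable def conf {nf : ℕ → ℕ} (t : XS nf) (x : V 2) : Bool × Bool :=
  match pick (fun j => Top j t x) with
  | none => (false, false)
  | some j => (true, (meda (Nat.unpair j).1).P (x - ph t))

lemma conf_of_top {nf : ℕ → ℕ} {j : ℕ} {t : XS nf} {x : V 2} (h : Top j t x) :
    conf t x = (true, (meda (Nat.unpair j).1).P (x - ph t)) := by
  have hex : ∃ j, Top j t x := ⟨j, h⟩
  have : pick (fun j => Top j t x) = some j := by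
    unfold pick
    rw [dif_pos hex]
    congr 1
    exact hex.choose_spec.unique h
  unfold conf
  rw [this]

lemma conf_of_not {nf : ℕ → ℕ} {t : XS nf} {x : V 2} (h : ¬ ∃ j, Top j t x) :
    conf t x = (false, false) := by
  have : pick (fun j => Top j t x) = none := by
    unfold pick
    rw [dif_neg h]
  unfold conf
  rw [this]

lemma conf_sh {nf : ℕ → ℕ} (t : XS nf) (a x : V 2) : conf (sh a t) x = conf t (x + a) := by
  have hT : ∀ j, Top j (sh a t) x ↔ Top j t (x + a) := by
    intro j
    unfold Top
    simp only [InW_sh]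
  by_cases h : ∃ j, Top j t (x + a)
  · obtain ⟨j, hj⟩ := h
    rw [conf_of_top hj, conf_of_top ((hT j).2 hj), med_ph_sh]
  · rw [conf_of_not h, conf_of_not]
    rintro ⟨j, hj⟩
    exact h ⟨j, (hT j).1 hj⟩

/-! measurability -/

lemma meas_InW {nf : ℕ → ℕ} (j : ℕ) (x : V 2) : MeasurableSet {t : XS nf | InW j t x} := by
  unfold InW
  rw [Set.ofPred_exists]
  refine MeasurableSet.iUnion fun i => ?_
  have hm : Measurable fun t : XS nf => t (some j, i) := measurable_pi_apply _
  exact hm (MeasurableSet.of_discrete (s := {z : ZMod (KK nf (some j)) |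
    2 * nf j + 1 ≤ (((x i : ℤ) : ZMod (KK nf (some j))) - z).val}))

lemma meas_Top {nf : ℕ → ℕ} (j : ℕ) (x : V 2) : MeasurableSet {t : XS nf | Top j t x} := by
  unfold Top
  rw [Set.ofPred_and]
  refine (meas_InW j x).inter ?_
  rw [Set.ofPred_forall]
  refine MeasurableSet.iInter fun j' => ?_
  by_cases h : j < j'
  · simp only [h, true_imp_iff]
    exact (meas_InW j' x).compl
  · simp only [h, false_imp_iff]
    exact MeasurableSet.univ

lemma meas_ph {nf : ℕ → ℕ} (k : ℕ) (x : V 2) (b : Bool) :
    MeasurableSet {t : XS nf | (meda k).P (x - ph t) = b} := by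
  have hm : Measurable fun t : XS nf => ph t := by
    refine measurable_pi_iff.2 fun i => ?_
    exact (measurable_of_finite (fun z : ZMod (KK nf none) => (z.val : ℤ))).comp
      (measurable_pi_apply (none, i))
  exact hm ((Set.to_countable {v : V 2 | (meda k).P (x - v) = b}).measurableSet)

lemma meas_conf {nf : ℕ → ℕ} : Measurable fun t : XS nf => conf t := by
  refine measurable_pi_iff.2 fun x => ?_
  have hset : ∀ b : Bool, MeasurableSet {t : XS nf | conf t x = (true, b)} := by
    intro b
    have : {t : XS nf | conf t x = (true, b)} =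
        ⋃ j : ℕ, ({t | Top j t x} ∩ {t | (meda (Nat.unpair j).1).P (x - ph t) = b}) := by
      ext t
      simp only [Set.mem_ofPred_eq, Set.mem_iUnion, Set.mem_inter_iff]
      constructor
      · intro h
        by_cases hex : ∃ j, Top j t x
        · obtain ⟨j, hj⟩ := hex
          rw [conf_of_top hj] at h
          exact ⟨j, hj, (Prod.mk.inj h).2⟩
        · rw [conf_of_not hex] at h
          exact absurd (Prod.mk.inj h).1 (by decide)
      · rintro ⟨j, hj, hb⟩
        rw [conf_of_top hj, hb]
    rw [this]
    exact MeasurableSet.iUnion fun j => (meas_Top j x).inter (meas_ph _ x b)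
  refine measurable_to_countable' fun y => ?_
  obtain ⟨a, b⟩ := y
  cases a
  · have hcompl : {t : XS nf | conf t x = (false, b)} =
        if b = false then ({t : XS nf | conf t x = (true, true)} ∪ {t : XS nf | conf t x = (true, false)})ᶜ
          else ∅ := by
      ext t
      by_cases hex : ∃ j, Top j t x
      · obtain ⟨j, hj⟩ := hex
        have h1 := conf_of_top hj
        cases b <;> cases h2 : (meda (Nat.unpair j).1).P (x - ph t) <;>
          simp [h1, h2]
      · have h1 := conf_of_not hex
        cases b <;> simp [h1]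
    change MeasurableSet {t : XS nf | conf t x = (false, b)}
    rw [hcompl]
    split_ifs
    · exact ((hset true).union (hset false)).compl
    · exact MeasurableSet.empty
  · exact hset b

end Pool.Agent.T9h50.AN
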