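import Pool.Agent.T9h50.AN.Stat

set_option autoImplicit false

/-! Stationary random sets of frozen sites: geometry and probability. -/

namespace Pool.Agent.T9h50.AN

open Complex MeasureTheory Filter Pool.Agent.H12R2.And
open scoped ENNReal Topology

lemma val_add {N : ℕ} [NeZero N] (z : ZMod N) (c : ℤ) :
    ((((c : ZMod N) - z).val : ℕ) : ℤ) = (c + (((0 - z : ZMod N).val : ℕ) : ℤ)) % (N : ℤ) := by
  have : ((c : ZMod N) - z) = (((c + (((0 - z : ZMod N).val : ℕ) : ℤ) : ℤ)) : ZMod N) := by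
    push_cast
    rw [ZMod.natCast_zmod_val]; ring
  rw [this, ZMod.val_intCast]

/-- the residues of the origin -/
def rr {nf : ℕ → ℕ} (j : ℕ) (t : XS nf) (i : Fin 2) : ℤ :=
  (((0 - t (some j, i) : ZMod (KK nf (some j))).val : ℕ) : ℤ)

lemma InW_iff {nf : ℕ → ℕ} (j : ℕ) (t : XS nf) (x : V 2) :
    InW j t x ↔ ∃ i : Fin 2, 2 * (nf j : ℤ) + 1 ≤ (x i + rr j t i) % ((Nn (nf j) : ℕ) : ℤ) := by
  unfold InW
  refine exists_congr fun i => ?_
  have h := val_add (N := KK nf (some j)) (t (some j, i)) (x i)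
  have e : ((KK nf (some j) : ℕ) : ℤ) = ((Nn (nf j) : ℕ) : ℤ) := rfl
  rw [e] at h
  unfold rr
  rw [← h]
  exact_mod_cast Iff.rfl

lemma rr_bds {nf : ℕ → ℕ} (j : ℕ) (t : XS nf) (i : Fin 2) :
    0 ≤ rr j t i ∧ rr j t i < ((Nn (nf j) : ℕ) : ℤ) := by
  unfold rr
  refine ⟨by positivity, ?_⟩
  have h2 : (0 - t (some j, i) : ZMod (KK nf (some j))).val < Nn (nf j) :=
    ZMod.val_lt (0 - t (some j, i) : ZMod (KK nf (some j)))
  exact_mod_cast h2

lemma cell {nf : ℕ → ℕ} {j M : ℕ} {t : XS nf} (h : ∀ x ∈ Q (0 : V 2) M, ¬ InW j t x) :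
    ∃ c : V 2, Q (0 : V 2) M ⊆ Q c (nf j) ∧ (∀ x, InA c (nf j) x → InW j t x) ∧
      ∀ x, InA c (nf j) x → x ∈ Q (0 : V 2) (2 * Nn (nf j)) := by
  have hNn : ((Nn (nf j) : ℕ) : ℤ) = 2 * (nf j : ℤ) + 1 + ((th (nf j) : ℕ) : ℤ) := by
    unfold Nn; push_cast; ring
  have hth : ((th (nf j) : ℕ) : ℤ) = 26 * ((mm (nf j) : ℕ) : ℤ) + 1 := by unfold th; push_cast; ring
  have hth1 : 1 ≤ ((th (nf j) : ℕ) : ℤ) := by rw [hth]; omega
  have hr := rr_bds j t
  have h0 : ∀ i, rr j t i ≤ 2 * (nf j : ℤ) := by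
    intro i
    have h1 := h 0 (self_mem_Q _ _)
    rw [InW_iff] at h1
    push Not at h1
    have h2 := h1 i
    rw [Pi.zero_apply, zero_add, Int.emod_eq_of_lt (hr i).1 (hr i).2] at h2
    omega
  refine ⟨fun i => (nf j : ℤ) - rr j t i, ?_, ?_, ?_⟩
  · intro x hx
    rw [mem_Q] at hx ⊢
    intro i
    have hxi := abs_le.1 (hx i)
    simp only [Pi.zero_apply, sub_zero] at hxi
    have hri := hr i
    have h0i := h0 i
    by_contra hc
    have hcase : x i + rr j t i ≤ -1 ∨ 2 * (nf j : ℤ) + 1 ≤ x i + rr j t i := by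
      by_contra hcc
      push Not at hcc
      apply hc
      rw [abs_le]
      constructor <;> omega
    rcases hcase with h1 | h1
    · set y : V 2 := Function.update 0 i (-1 - rr j t i) with hy
      have hyi : y i = -1 - rr j t i := by simp [hy]
      have hyQ : y ∈ Q (0 : V 2) M := by
        rw [mem_Q]
        intro i'
        by_cases hii : i' = i
        · subst hii
          rw [hyi, Pi.zero_apply, sub_zero, abs_le]
          constructor <;> omega
        · simp [hy, Function.update_of_ne hii]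
      apply h y hyQ
      rw [InW_iff]
      refine ⟨i, ?_⟩
      rw [hyi, show -1 - rr j t i + rr j t i = -1 by ring]
      have : (-1 : ℤ) % ((Nn (nf j) : ℕ) : ℤ) = ((Nn (nf j) : ℕ) : ℤ) - 1 := by
        rw [Int.emod_eq_iff (by omega)]
        refine ⟨by omega, by omega, ?_⟩
        exact ⟨1, by ring⟩
      rw [this]; omega
    · set y : V 2 := Function.update 0 i (2 * (nf j : ℤ) + 1 - rr j t i) with hy
      have hyi : y i = 2 * (nf j : ℤ) + 1 - rr j t i := by simp [hy]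
      have hyQ : y ∈ Q (0 : V 2) M := by
        rw [mem_Q]
        intro i'
        by_cases hii : i' = i
        · subst hii
          rw [hyi, Pi.zero_apply, sub_zero, abs_le]
          constructor <;> omega
        · simp [hy, Function.update_of_ne hii]
      apply h y hyQ
      rw [InW_iff]
      refine ⟨i, ?_⟩
      rw [hyi, show 2 * (nf j : ℤ) + 1 - rr j t i + rr j t i = 2 * (nf j : ℤ) + 1 by ring,
        Int.emod_eq_of_lt (by omega) (by omega)]
  · intro x hx
    obtain ⟨h1, h2⟩ := hx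
    rw [mem_Q] at h1 h2
    push Not at h2
    obtain ⟨i, hi⟩ := h2
    have h1i := abs_le.1 (h1 i)
    push_cast at h1i
    rw [InW_iff]
    refine ⟨i, ?_⟩
    rw [lt_abs] at hi
    rcases hi with hi | hi
    · rw [Int.emod_eq_of_lt (by omega) (by omega)]
      omega
    · have : (x i + rr j t i) % ((Nn (nf j) : ℕ) : ℤ) = x i + rr j t i + ((Nn (nf j) : ℕ) : ℤ) := by
        rw [Int.emod_eq_iff (by omega)]
        refine ⟨by omega, by omega, ?_⟩
        exact ⟨1, by ring⟩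
      rw [this]; omega
  · intro x hx
    have h1 := hx.1
    rw [mem_Q] at h1 ⊢
    intro i
    have h1i := abs_le.1 (h1 i)
    have hri := hr i
    have h0i := h0 i
    push_cast at h1i ⊢
    rw [Pi.zero_apply, sub_zero, abs_le]
    constructor <;> omega

/-! probability -/

lemma un_bound {K : ℕ} [NeZero K] (c : ZMod K) (m : ℕ) :
    un K {z | m ≤ (c - z).val} ≤ ((K - m : ℕ) : ℝ≥0∞) / (K : ℝ≥0∞) := by
  classical
  unfold un
  rw [PMF.toMeasure_uniformOfFintype_apply _ MeasurableSet.of_discrete, ZMod.card]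
  gcongr
  have hinj : Function.Injective (fun z : {z : ZMod K | m ≤ (c - z).val} =>
      (⟨(c - z.1).val - m, by
        have := ZMod.val_lt (c - z.1)
        have h2 : m ≤ (c - z.1).val := z.2
        omega⟩ : Fin (K - m))) := by
    intro a b hab
    have h1 : (c - a.1).val - m = (c - b.1).val - m := by simpa using hab
    have ha : m ≤ (c - a.1).val := a.2
    have hb : m ≤ (c - b.1).val := b.2
    have h2 : (c - a.1).val = (c - b.1).val := by omega
    have h3 := ZMod.val_injective K h2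
    apply Subtype.ext
    exact sub_right_injective h3
  have := Fintype.card_le_of_injective _ hinj
  simpa using this

lemma prob_InW {nf : ℕ → ℕ} (j : ℕ) (x : V 2) :
    mX nf {t | InW j t x} ≤ 2 * (((th (nf j) : ℕ) : ℝ≥0∞) / ((Nn (nf j) : ℕ) : ℝ≥0∞)) := by
  have h1 : {t : XS nf | InW j t x} ⊆ ⋃ i : Fin 2, {t : XS nf |
      2 * nf j + 1 ≤ (((x i : ℤ) : ZMod (KK nf (some j))) - t (some j, i)).val} := by
    intro t ht
    obtain ⟨i, hi⟩ := ht
    exact Set.mem_iUnion.2 ⟨i, hi⟩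
  refine (measure_mono h1).trans ((measure_iUnion_fintype_le _ _).trans ?_)
  have h2 : ∀ i : Fin 2, mX nf {t : XS nf |
      2 * nf j + 1 ≤ (((x i : ℤ) : ZMod (KK nf (some j))) - t (some j, i)).val}
      ≤ ((th (nf j) : ℕ) : ℝ≥0∞) / ((Nn (nf j) : ℕ) : ℝ≥0∞) := by
    intro i
    have h3 := (measurePreserving_eval_infinitePi (fun p : Option ℕ × Fin 2 => un (KK nf p.1))
      (some j, i)).measure_preimage
      (s := {z : ZMod (KK nf (some j)) | 2 * nf j + 1 ≤ (((x i : ℤ) : ZMod (KK nf (some j))) - z).val})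
      (MeasurableSet.of_discrete.nullMeasurableSet)
    have h4 := un_bound (K := KK nf (some j)) ((x i : ℤ) : ZMod (KK nf (some j))) (2 * nf j + 1)
    have e : KK nf (some j) - (2 * nf j + 1) = th (nf j) := by
      change Nn (nf j) - (2 * nf j + 1) = th (nf j)
      unfold Nn; omega
    rw [e] at h4
    refine le_trans (le_of_eq ?_) h4
    exact h3
  calc ∑ i : Fin 2, mX nf {t : XS nf |
      2 * nf j + 1 ≤ (((x i : ℤ) : ZMod (KK nf (some j))) - t (some j, i)).val}
      ≤ ∑ _i : Fin 2, ((th (nf j) : ℕ) : ℝ≥0∞) / ((Nn (nf j) : ℕ) : ℝ≥0∞) :=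
        Finset.sum_le_sum fun i _ => h2 i
    _ = _ := by rw [Finset.sum_const, Finset.card_univ, Fintype.card_fin, nsmul_eq_mul]; rfl

lemma prob_box {nf : ℕ → ℕ} (j M : ℕ) :
    mX nf {t | ∃ x ∈ Q (0 : V 2) M, InW j t x} ≤
      (((2 * M + 1) ^ 2 : ℕ) : ℝ≥0∞) * (2 * (((th (nf j) : ℕ) : ℝ≥0∞) / ((Nn (nf j) : ℕ) : ℝ≥0∞))) := by
  have h1 : {t : XS nf | ∃ x ∈ Q (0 : V 2) M, InW j t x} = ⋃ x ∈ Q (0 : V 2) M, {t | InW j t x} := by
    ext t; simp
  rw [h1]
  refine (measure_biUnion_finset_le _ _).trans ?_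
  refine (Finset.sum_le_sum fun x _ => prob_InW j x).trans ?_
  rw [Finset.sum_const, card_Q, nsmul_eq_mul]

/-- the walls are thin -/
lemma thin (M : ℕ) {η : ℝ} (hη : 0 < η) (n0 : ℕ) : ∃ n, n0 ≤ n ∧
    (((2 * M + 1) ^ 2 : ℕ) : ℝ) * (2 * (((th n : ℕ) : ℝ) / ((Nn n : ℕ) : ℝ))) ≤ η := by
  have h1 : Tendsto (fun n : ℕ => Real.log ((n : ℝ) + 2) / ((n : ℝ) + 2)) atTop (𝓝 0) := by
    have h2 : Tendsto (fun x : ℝ => Real.log x / x) atTop (𝓝 0) := by
      have := Real.isLittleO_log_id_atTop.tendsto_div_nhds_zero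
      simpa using this
    refine h2.comp ?_
    exact tendsto_atTop_add_const_right _ _ tendsto_natCast_atTop_atTop
  set A : ℝ := (((2 * M + 1) ^ 2 : ℕ) : ℝ) * 2 * 200000 with hA
  have hA0 : 0 < A := by rw [hA]; positivity
  have h3 := h1.eventually (gt_mem_nhds (div_pos hη hA0))
  obtain ⟨n, hn, hn0⟩ := (h3.and (eventually_ge_atTop (max n0 2))).exists
  refine ⟨n, (le_max_left _ _).trans hn0, ?_⟩
  have hn2 : (2 : ℝ) ≤ n := by exact_mod_cast (le_max_right _ _).trans hn0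
  have h4 : ((th n : ℕ) : ℝ) ≤ 200000 * Real.log (n + 2) := thick n
  have h5 : ((n : ℝ) + 2) ≤ ((Nn n : ℕ) : ℝ) := by
    unfold Nn
    push_cast
    have : (0 : ℝ) ≤ ((th n : ℕ) : ℝ) := by positivity
    linarith
  have hl0 : 0 ≤ Real.log ((n : ℝ) + 2) := Real.log_nonneg (by linarith)
  have h6 : ((th n : ℕ) : ℝ) / ((Nn n : ℕ) : ℝ) ≤ 200000 * (Real.log ((n : ℝ) + 2) / ((n : ℝ) + 2)) := by
    rw [← mul_div_assoc]
    exact div_le_div₀ (by positivity) h4 (by linarith) h5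
  calc (((2 * M + 1) ^ 2 : ℕ) : ℝ) * (2 * (((th n : ℕ) : ℝ) / ((Nn n : ℕ) : ℝ)))
      ≤ (((2 * M + 1) ^ 2 : ℕ) : ℝ) * (2 * (200000 * (Real.log ((n : ℝ) + 2) / ((n : ℝ) + 2)))) := by
        gcongr
    _ = A * (Real.log ((n : ℝ) + 2) / ((n : ℝ) + 2)) := by rw [hA]; ring
    _ ≤ A * (η / A) := by gcongr
    _ = η := by field_simp

/-- choice of the scales -/
lemma exists_nf {ε : ℝ} (hε : 0 < ε) : ∃ (nf Mf : ℕ → ℕ), (∀ j, j ≤ nf j) ∧ (∀ j, j ≤ Mf j) ∧
    (∀ j, 2 * Nn (nf j) ≤ Mf (j + 1)) ∧ Monotone Mf ∧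
    ∀ j, (((2 * Mf j + 1) ^ 2 : ℕ) : ℝ) * (2 * (((th (nf j) : ℕ) : ℝ) / ((Nn (nf j) : ℕ) : ℝ)))
      ≤ ε / 2 * (1 / 2) ^ j := by
  have h1 : ∀ (M j : ℕ), ∃ n, j ≤ n ∧
      (((2 * M + 1) ^ 2 : ℕ) : ℝ) * (2 * (((th n : ℕ) : ℝ) / ((Nn n : ℕ) : ℝ))) ≤ ε / 2 * (1 / 2) ^ j :=
    fun M j => thin M (by positivity) j
  choose f hf1 hf2 using h1
  set Mf : ℕ → ℕ := fun j => Nat.rec 0 (fun j p => 2 * Nn (f p j) + p + 1) j with hMf
  have hs : ∀ j, Mf (j + 1) = 2 * Nn (f (Mf j) j) + Mf j + 1 := fun j => rfl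
  have hmono : StrictMono Mf := strictMono_nat_of_lt_succ fun j => by rw [hs]; omega
  refine ⟨fun j => f (Mf j) j, Mf, fun j => hf1 _ _, fun j => hmono.id_le j, fun j => ?_,
    hmono.monotone, fun j => hf2 _ _⟩
  change 2 * Nn (f (Mf j) j) ≤ Mf (j + 1)
  rw [hs]; omega

/-- random frozen sites with small density which create walls of every medium at arbitrarily large
scales -/
theorem exists_stationary {ε : ℝ} (hε : 0 < ε) :
    ∃ m : Measure (V 2 → Bool × Bool), IsProbabilityMeasure m ∧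
      (∀ a : V 2, m.map (fun π x => π (x + a)) = m) ∧
      m {π | (π 0).1 = true} ≤ ENNReal.ofReal ε ∧
      ∀ᵐ π ∂m, ∀ ω : V 2 → Bool, (∀ x, (π x).1 = true → ω x = (π x).2) →
        ∀ k N : ℕ, ∃ (n : ℕ) (c : V 2), N ≤ n ∧ Q (0 : V 2) N ⊆ Q c n ∧ HasWall ω k n c := by
  obtain ⟨nf, Mf, hnf, hMj, hMN, hMm, hη⟩ := exists_nf hε
  have hbox : ∀ j, mX nf {t | ∃ x ∈ Q (0 : V 2) (Mf j), InW j t x}
      ≤ ENNReal.ofReal (ε / 2 * (1 / 2) ^ j) := by
    intro j
    refine (prob_box j (Mf j)).trans ?_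
    have hN0 : (0 : ℝ) < ((Nn (nf j) : ℕ) : ℝ) := by
      have : 0 < Nn (nf j) := by unfold Nn; omega
      exact_mod_cast this
    have e : (((2 * Mf j + 1) ^ 2 : ℕ) : ℝ≥0∞) *
        (2 * (((th (nf j) : ℕ) : ℝ≥0∞) / ((Nn (nf j) : ℕ) : ℝ≥0∞))) =
        ENNReal.ofReal ((((2 * Mf j + 1) ^ 2 : ℕ) : ℝ) *
          (2 * (((th (nf j) : ℕ) : ℝ) / ((Nn (nf j) : ℕ) : ℝ)))) := by
      rw [ENNReal.ofReal_mul (by positivity), ENNReal.ofReal_mul (by norm_num),
        ENNReal.ofReal_div_of_pos hN0, ENNReal.ofReal_natCast, ENNReal.ofReal_natCast,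
        ENNReal.ofReal_natCast]
      norm_num
    rw [e]
    exact ENNReal.ofReal_le_ofReal (hη j)
  have hsum : ∑' j : ℕ, ENNReal.ofReal (ε / 2 * (1 / 2) ^ j) = ENNReal.ofReal ε := by
    rw [← ENNReal.ofReal_tsum_of_nonneg (fun j => by positivity)
      ((summable_geometric_of_lt_one (by norm_num) (by norm_num)).mul_left _), tsum_mul_left,
      tsum_geometric_of_lt_one (by norm_num) (by norm_num)]
    congr 1; ring
  have hBC : ∀ᵐ t ∂(mX nf), ∀ᶠ j in atTop, t ∉ {t : XS nf | ∃ x ∈ Q (0 : V 2) (Mf j), InW j t x} := by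
    apply ae_eventually_notMem
    refine ne_top_of_le_ne_top ?_ (ENNReal.tsum_le_tsum hbox)
    rw [hsum]; exact ENNReal.ofReal_ne_top
  have hprob : IsProbabilityMeasure ((mX nf).map fun t => conf t) :=
    Measure.isProbabilityMeasure_map meas_conf.aemeasurable
  refine ⟨(mX nf).map fun t => conf t, hprob, ?_, ?_, ?_⟩
  · intro a
    have hmS : Measurable fun (π : V 2 → Bool × Bool) (x : V 2) => π (x + a) :=
      measurable_pi_iff.2 fun x => measurable_pi_apply _
    rw [Measure.map_map hmS meas_conf]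
    have e : ((fun (π : V 2 → Bool × Bool) (x : V 2) => π (x + a)) ∘ fun t : XS nf => conf t)
        = (fun t : XS nf => conf t) ∘ sh a := by
      funext t x
      exact (conf_sh t a x).symm
    rw [e, ← Measure.map_map meas_conf (measurable_sh a), map_sh]
  · have hms : MeasurableSet {π : V 2 → Bool × Bool | (π 0).1 = true} := by
      have : Measurable fun π : V 2 → Bool × Bool => (π 0).1 := (measurable_pi_apply 0).fst
      exact this (measurableSet_singleton true)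
    rw [Measure.map_apply meas_conf hms]
    have hsub : (fun t : XS nf => conf t) ⁻¹' {π : V 2 → Bool × Bool | (π 0).1 = true} ⊆
        ⋃ j : ℕ, {t : XS nf | ∃ x ∈ Q (0 : V 2) (Mf j), InW j t x} := by
      intro t ht
      have ht' : (conf t 0).1 = true := ht
      by_cases hex : ∃ j, Top j t 0
      · obtain ⟨j, hj⟩ := hex
        exact Set.mem_iUnion.2 ⟨j, 0, self_mem_Q _ _, hj.1⟩
      · rw [conf_of_not hex] at ht'
        exact absurd ht' (by decide)
    refine (measure_mono hsub).trans ((measure_iUnion_le _).trans ?_)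
    rw [← hsum]
    exact ENNReal.tsum_le_tsum hbox
  · -- the walls
    set G : Set (V 2 → Bool × Bool) := {π | ∀ k N : ℕ, ∃ (n : ℕ) (c v : V 2), N ≤ n ∧
      Q (0 : V 2) N ⊆ Q c n ∧ ∀ x, InA c n x → π x = (true, (meda k).P (x - v))} with hG
    have hGm : MeasurableSet G := by
      have : G = ⋂ (k : ℕ) (N : ℕ), ⋃ (n : ℕ) (c : V 2) (v : V 2),
          {π | N ≤ n ∧ Q (0 : V 2) N ⊆ Q c n ∧ ∀ x, InA c n x → π x = (true, (meda k).P (x - v))} := by
        ext π; simp [hG]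
      rw [this]
      refine MeasurableSet.iInter fun k => MeasurableSet.iInter fun N => MeasurableSet.iUnion fun n =>
        MeasurableSet.iUnion fun c => MeasurableSet.iUnion fun v => ?_
      by_cases h1 : N ≤ n ∧ Q (0 : V 2) N ⊆ Q c n
      · have : {π : V 2 → Bool × Bool | N ≤ n ∧ Q (0 : V 2) N ⊆ Q c n ∧
            ∀ x, InA c n x → π x = (true, (meda k).P (x - v))} =
            ⋂ x ∈ {x | InA c n x}, {π | π x = (true, (meda k).P (x - v))} := by
          ext π
          simp only [Set.mem_ofPred_eq, Set.mem_iInter]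
          exact ⟨fun h => h.2.2, fun h => ⟨h1.1, h1.2, h⟩⟩
        rw [this]
        refine MeasurableSet.biInter (Set.to_countable _) fun x _ => ?_
        exact (measurable_pi_apply x) (measurableSet_singleton _)
      · have : {π : V 2 → Bool × Bool | N ≤ n ∧ Q (0 : V 2) N ⊆ Q c n ∧
            ∀ x, InA c n x → π x = (true, (meda k).P (x - v))} = ∅ := by
          ext π
          simp only [Set.mem_ofPred_eq, Set.mem_empty_iff_false, iff_false]
          exact fun h => h1 ⟨h.1, h.2.1⟩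
        rw [this]; exact MeasurableSet.empty
    have hGae : ∀ᵐ π ∂((mX nf).map fun t => conf t), π ∈ G := by
      refine (ae_map_iff (p := fun π => π ∈ G) meas_conf.aemeasurable hGm).2 ?_
      filter_upwards [hBC] with t ht
      rw [eventually_atTop] at ht
      obtain ⟨j0, hj0⟩ := ht
      intro k N
      set j := Nat.pair k (max N j0) with hj
      have hjge : max N j0 ≤ j := Nat.right_le_pair _ _
      have hjN : N ≤ j := (le_max_left _ _).trans hjge
      have hjj0 : j0 ≤ j := (le_max_right _ _).trans hjge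
      have hnot : ∀ i, j0 ≤ i → ∀ x ∈ Q (0 : V 2) (Mf i), ¬ InW i t x := by
        intro i hi x hx hc
        exact hj0 i hi ⟨x, hx, hc⟩
      obtain ⟨c, hc1, hc2, hc3⟩ := cell (hnot j hjj0)
      refine ⟨nf j, c, ph t, hjN.trans (hnf j), (Q_mono (hjN.trans (hMj j))).trans hc1, ?_⟩
      intro x hx
      have hTop : Top j t x := by
        refine ⟨hc2 x hx, fun j' hj' => ?_⟩
        apply hnot j' (hjj0.trans hj'.le)
        refine Q_mono ?_ (hc3 x hx)
        exact (hMN j).trans (hMm hj')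
      rw [conf_of_top hTop, hj, Nat.unpair_pair]
    filter_upwards [hGae] with π hπ ω hω k N
    obtain ⟨n, c, v, h1, h2, h3⟩ := hπ k N
    refine ⟨n, c, h1, h2, v, fun x hx => ?_⟩
    have h4 := h3 x hx
    have h5 := hω x (by rw [h4])
    rw [h5, h4]

end Pool.Agent.T9h50.AN
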