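import Mathlib

set_option autoImplicit false

/-! A kernel-checkable certificate for the decay of solutions in a periodic medium. -/

namespace Pool.Agent.T9h50.AN

/-- entry `(i, j)` of the packed table `T` of side `m` (24 bits per entry, offset `2 ^ 23`); the
value outside of the positions `1..m` is the offset -/
def gv (m T i j : ℕ) : ℕ :=
  cond (Nat.ble 1 i) (cond (Nat.ble i m) (cond (Nat.ble 1 j) (cond (Nat.ble j m)
    (Nat.mod (Nat.shiftRight T (Nat.mul 24 (Nat.add (Nat.mul (Nat.pred i) m) (Nat.pred j)))) 16777216)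
       8388608) 8388608) 8388608) 8388608

/-- distance of two natural numbers -/
def ab (P M : ℕ) : ℕ := Nat.add (Nat.sub P M) (Nat.sub M P)

/-- the coefficient of the central entry -/
def cc (N al be bits cp cm b0 i j : ℕ) : ℕ :=
  cond (Nat.beq (Nat.mod (Nat.shiftRight bits
    (Nat.mod (Nat.add b0 (Nat.add (Nat.mul al i) (Nat.mul be j))) N)) 2) 1) cp cm

/-- the weighted entry of the residual at `(i, j)` -/
def tm (N al be bits cp cm dn R m T b0 i j : ℕ) : ℕ :=
  Nat.add
    (ab
      (Nat.add (cond (Nat.beq i (Nat.succ R)) (cond (Nat.beq j (Nat.succ R)) 2621440000 0) 0)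
        (Nat.add
          (Nat.mul 10000 (Nat.add (Nat.add (gv m T (Nat.succ i) j) (gv m T (Nat.pred i) j))
            (Nat.add (gv m T i (Nat.succ j)) (gv m T i (Nat.pred j)))))
          (Nat.add (Nat.mul 20000 (gv m T i j))
            (Nat.mul (cc N al be bits cp cm b0 i j) 8388608))))
      (Nat.add (Nat.mul (cc N al be bits cp cm b0 i j) (gv m T i j)) 503316480000))
    (Nat.mul dn (ab (gv m T i j) 8388608))

/-- finite sums by structural recursion -/
def sumTo (f : ℕ → ℕ) : ℕ → ℕ
  | 0 => 0
  | n + 1 => Nat.add (sumTo f n) (f n)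

/-- the check of one table -/
def chk (N al be bits cp cm dn R m n T b0 : ℕ) : Bool :=
  Nat.ble (sumTo (fun i => sumTo (fun j => tm N al be bits cp cm dn R m T b0 i j) n) n) 2595225600

/-- the check of all the tables -/
def chkAll (N al be bits cp cm dn R m n : ℕ) : List ℕ → ℕ → Bool
  | [], _ => true
  | T :: Ts, b0 => chk N al be bits cp cm dn R m n T b0 &&
      chkAll N al be bits cp cm dn R m n Ts (Nat.succ b0)

end Pool.Agent.T9h50.AN
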