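import Pool.Agent.T9h50.AN.Win
import Pool.Agent.T9h50.AN.Dec

set_option autoImplicit false

/-! Potentials with walls of every medium at infinitely many scales have purely singular
spectrum. -/

namespace Pool.Agent.T9h50.AN

open Complex MeasureTheory Filter Pool.Agent.H12R2.And
open scoped ENNReal Topology InnerProductSpace

/-- number of layers of a wall at scale `n` -/
def mm (n : ℕ) : ℕ := 2622 * (Nat.log 2 (n + 2) + 1)

/-- the annulus at scale `n` around `c` -/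
def InA (c : V 2) (n : ℕ) (x : V 2) : Prop := x ∈ Q c (n + 26 * mm n + 1) ∧ x ∉ Q c n

lemma pow69 : (0.99 : ℝ) ^ 69 ≤ 2⁻¹ := by norm_num

lemma numeric {n : ℕ} (hn : 2 ^ 20 ≤ n) :
    16 * ((n : ℝ) + 13 * mm n + 1) ^ 17 * 0.99 ^ (mm n) ≤ 1 := by
  set a : ℕ := Nat.log 2 (n + 2) + 1 with ha
  have h1 : n + 2 < 2 ^ a := Nat.lt_pow_succ_log_self (by norm_num) _
  have ha20 : 20 ≤ a := by
    have : Nat.log 2 (2 ^ 20) ≤ Nat.log 2 (n + 2) := Nat.log_mono_right (by omega)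
    rw [Nat.log_pow (by norm_num)] at this
    omega
  have hm : mm n = 2622 * a := rfl
  have h2 : a < 2 ^ a := Nat.lt_two_pow_self
  have h3 : 1048576 ≤ 2 ^ a := by
    calc 1048576 = 2 ^ 20 := by norm_num
      _ ≤ 2 ^ a := Nat.pow_le_pow_right (by norm_num) ha20
  have h4 : n + 13 * mm n + 1 ≤ 2 ^ (2 * a) := by
    have e1 : 2 ^ (2 * a) = 2 ^ a * 2 ^ a := by rw [show 2 * a = a + a by ring, pow_add]
    rw [hm, e1]
    clear_value a
    generalize 2 ^ a = P at h1 h2 h3 ⊢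
    have h7 : 34087 * P ≤ P * P := Nat.mul_le_mul_right _ (by linarith)
    linarith
  have h5 : ((n : ℝ) + 13 * mm n + 1) ≤ 2 ^ (2 * a) := by exact_mod_cast h4
  have h6 : (0.99 : ℝ) ^ (mm n) ≤ (2⁻¹) ^ (38 * a) := by
    rw [hm, show 2622 * a = 69 * (38 * a) by ring, pow_mul]
    exact pow_le_pow_left₀ (by norm_num) pow69 _
  calc 16 * ((n : ℝ) + 13 * mm n + 1) ^ 17 * 0.99 ^ (mm n)
      ≤ 2 ^ (4 * a) * ((2 : ℝ) ^ (2 * a)) ^ 17 * (2⁻¹) ^ (38 * a) := by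
        gcongr
        calc (16 : ℝ) = 2 ^ 4 := by norm_num
          _ ≤ 2 ^ (4 * a) := pow_le_pow_right₀ (by norm_num) (by omega)
    _ = 1 := by
        rw [← pow_mul, ← pow_add, show 4 * a + 2 * a * 17 = 38 * a by ring, ← mul_pow]
        norm_num

lemma mm_eq (n : ℕ) : mm n = 2622 * (Nat.log 2 (n + 2) + 1) := rfl

attribute [irreducible] mm

/-- `ω` has an intact wall of (a translate of) the medium `k` at scale `n` around `c` -/
def HasWall (ω : V 2 → Bool) (k n : ℕ) (c : V 2) : Prop :=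
  ∃ v : V 2, ∀ x, InA c n x → ω x = (meda k).P (x - v)

lemma Blk.shift {P : V 2 → Bool} {R : ℕ} {Z : Set ℂ} (h : Blk P R Z) (v : V 2) :
    Blk (fun x => P (x - v)) R Z := by
  intro ω x h1 z hz u B h2 h3
  have hQ : ∀ (m : ℕ) (y : V 2), y ∈ Q (x - v) m → y + v ∈ Q x m := by
    intro m y hy
    rw [mem_Q] at hy ⊢
    intro i
    have := hy i
    simp only [Pi.sub_apply, Pi.add_apply] at this ⊢
    rwa [show y i + v i - x i = y i - (x i - v i) by ring]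
  have key := h (fun y => ω (y + v)) (x - v) (fun y hy => ?_) z hz (fun y => u (y + v)) B
    (fun y hy => ?_) (fun y hy => h3 _ (hQ _ y hy))
  · simpa using key
  · have := h1 (y + v) (hQ _ y hy)
    simp only [add_sub_cancel_right] at this
    exact this
  · rw [← h2 (y + v) (hQ _ y hy)]
    exact hop_shift v ω u y

lemma wall_decay {ω : V 2 → Bool} {k n : ℕ} {c : V 2} (hW : HasWall ω k n c) {z : ℂ}
    (hz : z ∈ (meda k).Z) {u : V 2 → ℂ} {B : ℝ} (hu : ∀ x ∉ Q c n, hop ω u x = z * u x)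
    (hB : ∀ x, ‖u x‖ ≤ B) {y : V 2} (hy : y ∈ Q c (n + 13 * mm n + 1))
    (hy' : y ∉ Q c (n + 13 * mm n)) : ‖u y‖ ≤ 0.99 ^ (mm n) * B := by
  have hin : ∀ x ∈ Q y (mm n * (12 + 1)), InA c n x := by
    intro x hx
    refine ⟨?_, fun hc => hy' ?_⟩
    · have := Q_trans hy hx
      exact Q_mono (by omega) this
    · have := Q_trans hc (Q_symm.1 hx)
      exact Q_mono (by omega) this
  obtain ⟨v, hv⟩ := hW
  exact ((meda k).blk.shift v).iter hz (mm n) y (fun x hx => hv x (hin x hx))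
    (fun x hx => hu x (hin x hx).2) (fun x _ => hB x)

/-- absence of absolutely continuous spectrum at the energies blocked by the medium `k` -/
lemma singular_of_walls {ω : V 2 → Bool} {k : ℕ}
    (hω : ∀ N : ℕ, ∃ (n : ℕ) (c : V 2), N ≤ n ∧ Q (0 : V 2) N ⊆ Q c n ∧ HasWall ω k n c)
    {H : lp (fun _ : V 2 => ℂ) 2 →L[ℂ] lp (fun _ : V 2 => ℂ) 2} (hH : IsH ω H)
    (ψ : lp (fun _ : V 2 => ℂ) 2) (μ : Measure ℝ) [IsFiniteMeasure μ]
    (hμ : ∀ z : ℂ, z.im ≠ 0 → (∫ x, ((x : ℂ) - z)⁻¹ ∂μ) = inner ℂ ψ (Rz H z ψ)) (N0 : ℕ) :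
    ∀ᵐ E ∂(volume.restrict ({E : ℝ | (E : ℂ) ∈ interior (meda k).Z} ∩ Set.Ioc (-(N0 : ℝ)) N0)),
      μ.rnDeriv volume E = 0 := by
  choose nf cf hnf using hω
  -- the scales
  set N : ℕ → ℕ := fun j => 2 ^ 20 + 2 ^ j with hN
  set n : ℕ → ℕ := fun j => nf (N j) with hn
  set c : ℕ → V 2 := fun j => cf (N j) with hc
  have hn1 : ∀ j, N j ≤ n j := fun j => (hnf (N j)).1
  have hn2 : ∀ j, Q (0 : V 2) (N j) ⊆ Q (c j) (n j) := fun j => (hnf (N j)).2.1
  have hn3 : ∀ j, HasWall ω k (n j) (c j) := fun j => (hnf (N j)).2.2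
  have hn20 : ∀ j, 2 ^ 20 ≤ n j := fun j => le_trans (Nat.le_add_right _ _) (hn1 j)
  set ρ : ℕ → ℝ := fun j => (n j : ℝ) + 13 * mm (n j) + 1 with hρ
  have hρ2 : ∀ j, (2 : ℝ) ^ j ≤ ρ j := by
    intro j
    have h1 : ((2 ^ j : ℕ) : ℝ) ≤ n j := by
      have := hn1 j
      simp only [hN] at this
      exact_mod_cast (by omega : 2 ^ j ≤ n j)
    have h2 : (0 : ℝ) ≤ mm (n j) := by positivity
    push_cast at h1
    simp only [hρ]; linarith
  have hρ1 : ∀ j, 1 ≤ ρ j := fun j => (one_le_pow₀ (by norm_num)).trans (hρ2 j)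
  have hρ0 : ∀ j, 0 < ρ j := fun j => lt_of_lt_of_le one_pos (hρ1 j)
  set D : ℕ → Finset (V 2) := fun j => Q (c j) (n j + 13 * mm (n j)) with hD
  have hcard : ∀ j, ((D j).card : ℝ) ≤ 4 * ρ j ^ 2 := by
    intro j
    simp only [hD]
    rw [card_Q]
    push_cast
    have h2 : (0 : ℝ) ≤ n j + 13 * mm (n j) := by positivity
    have : (2 * ((n j : ℝ) + 13 * mm (n j)) + 1) ^ 2 ≤ (2 * ρ j) ^ 2 := by
      apply pow_le_pow_left₀ (by positivity)
      simp only [hρ]; linarith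
    linarith [this, (by ring : (2 * ρ j) ^ 2 = 4 * ρ j ^ 2)]
  set τ : ℕ → ℝ := fun j => (ρ j ^ 3)⁻¹ with hτ
  have hτ0 : ∀ j, 0 < τ j := fun j => by simp only [hτ]; have := hρ0 j; positivity
  have hτ1 : ∀ j, τ j ≤ 1 := fun j => inv_le_one_of_one_le₀ (one_le_pow₀ (hρ1 j))
  have hinv : ∀ j, (ρ j)⁻¹ ≤ (2⁻¹ : ℝ) ^ j := by
    intro j
    rw [inv_pow]
    exact inv_anti₀ (by positivity) (hρ2 j)
  have hτle : ∀ j, τ j ≤ (2⁻¹ : ℝ) ^ j := by
    intro j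
    refine le_trans ?_ (hinv j)
    exact inv_anti₀ (hρ0 j) (le_self_pow₀ (hρ1 j) (by norm_num))
  have hgeo : Tendsto (fun j : ℕ => (2⁻¹ : ℝ) ^ j) atTop (𝓝 0) :=
    tendsto_pow_atTop_nhds_zero_of_lt_one (by norm_num) (by norm_num)
  have hτt : Tendsto τ atTop (𝓝 0) := squeeze_zero (fun j => (hτ0 j).le) hτle hgeo
  have hsum : Summable fun j => ((D j).card : ℝ) * τ j := by
    have hg : Summable fun j : ℕ => 4 * (2⁻¹ : ℝ) ^ j :=
      (summable_geometric_of_lt_one (by norm_num) (by norm_num)).mul_left 4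
    refine Summable.of_nonneg_of_le (fun j => by have := (hτ0 j).le; positivity) (fun j => ?_) hg
    have h0 := hρ0 j
    calc ((D j).card : ℝ) * τ j ≤ 4 * ρ j ^ 2 * τ j := by
          have := (hτ0 j).le
          gcongr
          exact hcard j
      _ = 4 * (ρ j)⁻¹ := by simp only [hτ]; field_simp
      _ ≤ 4 * (2⁻¹ : ℝ) ^ j := by gcongr; exact hinv j
  set κ : ℕ → ℝ := fun j => 0.99 ^ (mm (n j)) with hκ
  have hκ0 : ∀ j, 0 ≤ κ j := fun j => by simp only [hκ]; positivity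
  have hκτ : ∀ j, 2 * ((2 : ℕ) : ℝ) * (D j).card * κ j ≤ τ j ^ 5 := by
    intro j
    have h1 := numeric (hn20 j)
    have h0 := hρ0 j
    have h2 : τ j ^ 5 * ρ j ^ 15 = 1 := by
      simp only [hτ]
      rw [inv_pow, ← pow_mul]
      exact inv_mul_cancel₀ (by positivity)
    have h3 : 2 * ((2 : ℕ) : ℝ) * (D j).card * κ j * ρ j ^ 15 ≤ 1 := by
      calc 2 * ((2 : ℕ) : ℝ) * (D j).card * κ j * ρ j ^ 15
          ≤ 2 * ((2 : ℕ) : ℝ) * (4 * ρ j ^ 2) * κ j * ρ j ^ 15 := by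
            have := hκ0 j
            gcongr
            exact hcard j
        _ = 16 * ρ j ^ 17 * κ j := by push_cast; ring
        _ ≤ 1 := h1
    have h5 : 0 < ρ j ^ 15 := by positivity
    rw [← h2] at h3
    exact le_of_mul_le_mul_right h3 h5
  have hSm : MeasurableSet ({E : ℝ | (E : ℂ) ∈ interior (meda k).Z} ∩ Set.Ioc (-(N0 : ℝ)) N0) := by
    refine MeasurableSet.inter ?_ measurableSet_Ioc
    exact (isOpen_interior.preimage Complex.continuous_ofReal).measurableSet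
  refine criterion (D := D) (τ := τ) (κ := κ) Set.inter_subset_right hτ0 hτ1 hτt hsum hκ0 hκτ ?_
    hH ψ μ hμ hSm
  intro R0 E hE
  have hE1 := hE.1
  simp only [Set.mem_ofPred_eq] at hE1
  rw [mem_interior_iff_mem_nhds, Metric.mem_nhds_iff] at hE1
  obtain ⟨δ, hδ, hsub⟩ := hE1
  have hτ3 : Tendsto (fun j => τ j ^ 3) atTop (𝓝 0) := by simpa using hτt.pow 3
  filter_upwards [hτ3.eventually (gt_mem_nhds hδ), eventually_ge_atTop R0] with j hj hjR
  have hQ0 : Q (0 : V 2) R0 ⊆ Q (c j) (n j) := by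
    refine (Q_mono ?_).trans (hn2 j)
    have : j < 2 ^ j := Nat.lt_two_pow_self
    simp only [hN]; omega
  refine ⟨hQ0.trans (Q_mono (by omega)), ?_⟩
  intro u B hu hB y hy hy'
  obtain ⟨x, hx, hxy⟩ := hy'
  have hz : (E : ℂ) + ((τ j ^ 3 : ℝ) : ℂ) * I ∈ (meda k).Z := by
    apply hsub
    rw [Metric.mem_ball, dist_eq_norm, add_sub_cancel_left, norm_mul, Complex.norm_I, mul_one,
      Complex.norm_real, Real.norm_eq_abs, abs_of_pos (pow_pos (hτ0 j) 3)]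
    exact hj
  exact wall_decay (hn3 j) hz (fun x hx => hu x fun hc => hx (hQ0 hc)) hB (Q_trans hx hxy) hy

/-- the main criterion -/
theorem purely_singular {ω : V 2 → Bool}
    (hω : ∀ k N : ℕ, ∃ (n : ℕ) (c : V 2), N ≤ n ∧ Q (0 : V 2) N ⊆ Q c n ∧ HasWall ω k n c)
    {H : lp (fun _ : V 2 => ℂ) 2 →L[ℂ] lp (fun _ : V 2 => ℂ) 2} (hH : IsH ω H)
    (ψ : lp (fun _ : V 2 => ℂ) 2) (μ : Measure ℝ) [IsFiniteMeasure μ]
    (hμ : ∀ z : ℂ, z.im ≠ 0 → (∫ x, ((x : ℂ) - z)⁻¹ ∂μ) = inner ℂ ψ (Rz H z ψ)) :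
    μ ⟂ₘ volume := by
  have h1 : ∀ᵐ E ∂(volume.restrict (⋃ p : ℕ × ℕ,
      ({E : ℝ | (E : ℂ) ∈ interior (meda p.1).Z} ∩ Set.Ioc (-(p.2 : ℝ)) p.2))),
      μ.rnDeriv volume E = 0 := by
    rw [ae_restrict_iUnion_iff]
    rintro ⟨k, N0⟩
    exact singular_of_walls (hω k) hH ψ μ hμ N0
  have h2 : (⋃ p : ℕ × ℕ,
      ({E : ℝ | (E : ℂ) ∈ interior (meda p.1).Z} ∩ Set.Ioc (-(p.2 : ℝ)) p.2)) = Set.univ := by
    rw [Set.eq_univ_iff_forall]
    intro E
    obtain ⟨k, δ, hδ, hk⟩ := cov_all E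
    obtain ⟨N0, hN0⟩ := exists_nat_gt |E|
    rw [Set.mem_iUnion]
    refine ⟨(k, N0), ?_, ?_⟩
    · change (E : ℂ) ∈ interior (meda k).Z
      rw [mem_interior_iff_mem_nhds, Metric.mem_nhds_iff]
      refine ⟨δ, hδ, fun z hz => hk z ?_⟩
      rwa [Metric.mem_ball, dist_eq_norm] at hz
    · have := abs_lt.1 hN0
      exact ⟨this.1, this.2.le⟩
  have h3 := mutuallySingular_of_rnDeriv (μ := μ) (S := Set.univ) MeasurableSet.univ (by
    rwa [h2] at h1)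
  rwa [Measure.restrict_univ] at h3

end Pool.Agent.T9h50.AN
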