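import Pool.Agent.T9h50.AN.Snd
import Pool.Agent.T9h50.AN.Dat0
import Pool.Agent.T9h50.AN.Dat1
import Pool.Agent.T9h50.AN.Dat2
import Pool.Agent.T9h50.AN.Dat3
import Pool.Agent.T9h50.AN.Dat4
import Pool.Agent.T9h50.AN.Dat5
import Pool.Agent.T9h50.AN.Dat6

set_option autoImplicit false

/-! Periodic media which block all real energies. -/

namespace Pool.Agent.T9h50.AN

open Finset Complex Pool.Agent.H12R2.And

/-- the medium `P` blocks the energies in `Z` (at range `R`) -/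
def Blk (P : V 2 → Bool) (R : ℕ) (Z : Set ℂ) : Prop :=
  ∀ (ω : V 2 → Bool) (x : V 2), (∀ y ∈ Q x R, ω y = P y) → ∀ z ∈ Z, ∀ (u : V 2 → ℂ) (B : ℝ),
    (∀ y ∈ Q x R, hop ω u y = z * u y) → (∀ y ∈ Q x (R + 1), ‖u y‖ ≤ B) → ‖u x‖ ≤ 0.99 * B

lemma Blk.mono {P : V 2 → Bool} {R R' : ℕ} {Z : Set ℂ} (h : Blk P R Z) (hR : R ≤ R') :
    Blk P R' Z := by
  intro ω x h1 z hz u B h2 h3
  exact h ω x (fun y hy => h1 y (Q_mono hR hy)) z hz u B (fun y hy => h2 y (Q_mono hR hy))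
    (fun y hy => h3 y (Q_mono (by omega) hy))

/-- iterated decay -/
lemma Blk.iter {P : V 2 → Bool} {R : ℕ} {Z : Set ℂ} (h : Blk P R Z) {ω : V 2 → Bool} {z : ℂ}
    (hz : z ∈ Z) {u : V 2 → ℂ} {B : ℝ} : ∀ (m : ℕ) (x : V 2),
    (∀ y ∈ Q x (m * (R + 1)), ω y = P y) → (∀ y ∈ Q x (m * (R + 1)), hop ω u y = z * u y) →
    (∀ y ∈ Q x (m * (R + 1)), ‖u y‖ ≤ B) → ‖u x‖ ≤ 0.99 ^ m * B := by
  intro m
  induction m with
  | zero => intro x _ _ h3; simpa using h3 x (self_mem_Q _ _)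
  | succ m ih =>
      intro x h1 h2 h3
      have hle : R + 1 + m * (R + 1) = (m + 1) * (R + 1) := by ring
      have hle2 : R ≤ (m + 1) * (R + 1) := by rw [← hle]; omega
      have key := h ω x (fun y hy => h1 y (Q_mono hle2 hy)) z hz u (0.99 ^ m * B)
        (fun y hy => h2 y (Q_mono hle2 hy)) ?_
      · rw [pow_succ']; linarith
      · intro y hy
        have hsub : ∀ y' ∈ Q y (m * (R + 1)), y' ∈ Q x ((m + 1) * (R + 1)) := by
          intro y' hy'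
          have := Q_trans hy hy'
          rwa [hle] at this
        exact ih y (fun y' hy' => h1 y' (hsub y' hy')) (fun y' hy' => h2 y' (hsub y' hy'))
          (fun y' hy' => h3 y' (hsub y' hy'))

/-- windows -/
def wz (w : Wd) : Set ℂ := {z | ‖10000 * z - w.e‖ ≤ w.dn}

lemma blk_of_ok {w : Wd} {Ts : List ℕ} (h : ok w Ts = true) : Blk (patt w) w.R (wz w) :=
  fun _ω _x h1 _z hz _u _B h2 h3 => decay h h1 hz h2 h3

/-- the constant medium -/
lemma blk_const : Blk (fun _ => true) 0 {z | 4.05 ≤ ‖5 - z‖} := by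
  intro ω x h1 z hz u B h2 h3
  have h4 := h2 x (self_mem_Q _ _)
  have h5 := h1 x (self_mem_Q _ _)
  unfold hop at h4
  rw [Fin.sum_univ_two, h5] at h4
  have h6 : (5 - z) * u x = u (x + ee 0) + u (x - ee 0) + (u (x + ee 1) + u (x - ee 1)) := by
    simp only [if_true] at h4
    linear_combination h4
  have b1 := h3 _ (add_ee_mem x 0)
  have b2 := h3 _ (sub_ee_mem x 0)
  have b3 := h3 _ (add_ee_mem x 1)
  have b4 := h3 _ (sub_ee_mem x 1)
  have h7 : ‖5 - z‖ * ‖u x‖ ≤ 4 * B := by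
    rw [← norm_mul, h6]
    refine (norm_add_le _ _).trans ?_
    have := norm_add_le (u (x + ee 0)) (u (x - ee 0))
    have := norm_add_le (u (x + ee 1)) (u (x - ee 1))
    linarith
  have hz' : (4.05 : ℝ) ≤ ‖5 - z‖ := hz
  have hu := norm_nonneg (u x)
  have h8 : 4.05 * ‖u x‖ ≤ 4 * B := le_trans (by gcongr) h7
  have hB : 0 ≤ B := by linarith
  linarith

/-- sign of a site -/
noncomputable def sg (y : V 2) : ℂ := (-1) ^ (y 0 + y 1)

lemma sg_ne (y : V 2) : sg y ≠ 0 := by unfold sg; exact zpow_ne_zero _ (by norm_num)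

lemma norm_sg (y : V 2) : ‖sg y‖ = 1 := by unfold sg; simp

lemma sg_add (y : V 2) (i : Fin 2) : sg (y + ee i) = - sg y := by
  unfold sg ee
  fin_cases i
  · simp only [Fin.zero_eta, Fin.isValue, Pi.add_apply, Pi.single_eq_same]
    rw [Pi.single_eq_of_ne (by decide), add_zero, show y 0 + 1 + y 1 = y 0 + y 1 + 1 by ring,
      zpow_add_one₀ (by norm_num)]
    ring
  · simp only [Fin.mk_one, Fin.isValue, Pi.add_apply, Pi.single_eq_same]
    rw [Pi.single_eq_of_ne (by decide), add_zero, show y 0 + (y 1 + 1) = y 0 + y 1 + 1 by ring,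
      zpow_add_one₀ (by norm_num)]
    ring

lemma sg_sub (y : V 2) (i : Fin 2) : sg (y - ee i) = - sg y := by
  have := sg_add (y - ee i) i
  rw [sub_add_cancel] at this
  rw [this, neg_neg]

/-- the staggered medium -/
lemma Blk.flip {P : V 2 → Bool} {R : ℕ} {Z : Set ℂ} (h : Blk P R Z) :
    Blk (fun y => !(P y)) R {z | 8 - z ∈ Z} := by
  intro ω x h1 z hz u B h2 h3
  have key := h (fun y => !(ω y)) x (fun y hy => by rw [h1 y hy, Bool.not_not]) (8 - z) hz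
    (fun y => sg y * u y) B ?_ ?_
  · simpa [norm_mul, norm_sg] using key
  · intro y hy
    have h4 := h2 y hy
    unfold hop at h4 ⊢
    rw [Fin.sum_univ_two] at h4 ⊢
    simp only [sg_add, sg_sub]
    by_cases hω : ω y = true
    · simp only [hω, Bool.not_true, if_true, Bool.false_eq_true, if_false] at h4 ⊢
      linear_combination (-sg y) * h4
    · rw [Bool.not_eq_true] at hω
      simp only [hω, Bool.not_false, if_true, Bool.false_eq_true, if_false] at h4 ⊢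
      linear_combination (-sg y) * h4
  · intro y hy
    rw [norm_mul, norm_sg, one_mul]; exact h3 y hy

/-- the list of windows -/
def wdt : ℕ → Wd
  | 0 => wd0
  | 1 => wd1
  | 2 => wd2
  | 3 => wd3
  | 4 => wd4
  | 5 => wd5
  | 6 => wd6
  | 7 => wd7
  | 8 => wd8
  | 9 => wd9
  | 10 => wd10
  | 11 => wd11
  | 12 => wd12
  | 13 => wd13
  | 14 => wd14
  | 15 => wd15
  | 16 => wd16
  | 17 => wd17
  | 18 => wd18
  | 19 => wd19
  | 20 => wd20
  | 21 => wd21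
  | 22 => wd22
  | 23 => wd23
  | 24 => wd24
  | 25 => wd25
  | 26 => wd26
  | 27 => wd27
  | 28 => wd28
  | _ => wd29

lemma ok_wdt : ∀ k : ℕ, ∃ Ts : List ℕ, ok (wdt k) Ts = true
  | 0 => ⟨tb0, ok0⟩
  | 1 => ⟨tb1, ok1⟩
  | 2 => ⟨tb2, ok2⟩
  | 3 => ⟨tb3, ok3⟩
  | 4 => ⟨tb4, ok4⟩
  | 5 => ⟨tb5, ok5⟩
  | 6 => ⟨tb6, ok6⟩
  | 7 => ⟨tb7, ok7⟩
  | 8 => ⟨tb8, ok8⟩
  | 9 => ⟨tb9, ok9⟩
  | 10 => ⟨tb10, ok10⟩
  | 11 => ⟨tb11, ok11⟩
  | 12 => ⟨tb12, ok12⟩
  | 13 => ⟨tb13, ok13⟩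
  | 14 => ⟨tb14, ok14⟩
  | 15 => ⟨tb15, ok15⟩
  | 16 => ⟨tb16, ok16⟩
  | 17 => ⟨tb17, ok17⟩
  | 18 => ⟨tb18, ok18⟩
  | 19 => ⟨tb19, ok19⟩
  | 20 => ⟨tb20, ok20⟩
  | 21 => ⟨tb21, ok21⟩
  | 22 => ⟨tb22, ok22⟩
  | 23 => ⟨tb23, ok23⟩
  | 24 => ⟨tb24, ok24⟩
  | 25 => ⟨tb25, ok25⟩
  | 26 => ⟨tb26, ok26⟩
  | 27 => ⟨tb27, ok27⟩
  | 28 => ⟨tb28, ok28⟩
  | (_ + 29) => ⟨tb29, ok29⟩

lemma R_wdt : ∀ k : ℕ, (wdt k).R ≤ 12
  | 0 => by decide
  | 1 => by decide
  | 2 => by decide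
  | 3 => by decide
  | 4 => by decide
  | 5 => by decide
  | 6 => by decide
  | 7 => by decide
  | 8 => by decide
  | 9 => by decide
  | 10 => by decide
  | 11 => by decide
  | 12 => by decide
  | 13 => by decide
  | 14 => by decide
  | 15 => by decide
  | 16 => by decide
  | 17 => by decide
  | 18 => by decide
  | 19 => by decide
  | 20 => by decide
  | 21 => by decide
  | 22 => by decide
  | 23 => by decide
  | 24 => by decide
  | 25 => by decide
  | 26 => by decide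
  | 27 => by decide
  | 28 => by decide
  | (_ + 29) => by change wd29.R ≤ 12; decide

lemma cov {t : ℝ} (h0 : 9500 ≤ t) (h1 : t ≤ 40010) :
    ∃ k, ((wdt k).e : ℝ) - (wdt k).dn < t ∧ t < (wdt k).e + (wdt k).dn := by
  by_cases c0 : t < 10665
  · refine ⟨29, ?_, ?_⟩
    · change ((10000 : ℕ) : ℝ) - ((665 : ℕ) : ℝ) < t; push_cast; linarith
    · change t < ((10000 : ℕ) : ℝ) + ((665 : ℕ) : ℝ); push_cast; linarith
  rw [not_lt] at c0
  by_cases c1 : t < 11987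
  · refine ⟨28, ?_, ?_⟩
    · change ((11300 : ℕ) : ℝ) - ((687 : ℕ) : ℝ) < t; push_cast; linarith
    · change t < ((11300 : ℕ) : ℝ) + ((687 : ℕ) : ℝ); push_cast; linarith
  rw [not_lt] at c1
  by_cases c2 : t < 13031
  · refine ⟨27, ?_, ?_⟩
    · change ((12500 : ℕ) : ℝ) - ((531 : ℕ) : ℝ) < t; push_cast; linarith
    · change t < ((12500 : ℕ) : ℝ) + ((531 : ℕ) : ℝ); push_cast; linarith
  rw [not_lt] at c2
  by_cases c3 : t < 14189
  · refine ⟨26, ?_, ?_⟩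
    · change ((13600 : ℕ) : ℝ) - ((589 : ℕ) : ℝ) < t; push_cast; linarith
    · change t < ((13600 : ℕ) : ℝ) + ((589 : ℕ) : ℝ); push_cast; linarith
  rw [not_lt] at c3
  by_cases c4 : t < 15047
  · refine ⟨25, ?_, ?_⟩
    · change ((14600 : ℕ) : ℝ) - ((447 : ℕ) : ℝ) < t; push_cast; linarith
    · change t < ((14600 : ℕ) : ℝ) + ((447 : ℕ) : ℝ); push_cast; linarith
  rw [not_lt] at c4
  by_cases c5 : t < 16170
  · refine ⟨24, ?_, ?_⟩
    · change ((15600 : ℕ) : ℝ) - ((570 : ℕ) : ℝ) < t; push_cast; linarith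
    · change t < ((15600 : ℕ) : ℝ) + ((570 : ℕ) : ℝ); push_cast; linarith
  rw [not_lt] at c5
  by_cases c6 : t < 17466
  · refine ⟨23, ?_, ?_⟩
    · change ((16800 : ℕ) : ℝ) - ((666 : ℕ) : ℝ) < t; push_cast; linarith
    · change t < ((16800 : ℕ) : ℝ) + ((666 : ℕ) : ℝ); push_cast; linarith
  rw [not_lt] at c6
  by_cases c7 : t < 18144
  · refine ⟨22, ?_, ?_⟩
    · change ((17800 : ℕ) : ℝ) - ((344 : ℕ) : ℝ) < t; push_cast; linarith
    · change t < ((17800 : ℕ) : ℝ) + ((344 : ℕ) : ℝ); push_cast; linarith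
  rw [not_lt] at c7
  by_cases c8 : t < 18683
  · refine ⟨21, ?_, ?_⟩
    · change ((18400 : ℕ) : ℝ) - ((283 : ℕ) : ℝ) < t; push_cast; linarith
    · change t < ((18400 : ℕ) : ℝ) + ((283 : ℕ) : ℝ); push_cast; linarith
  rw [not_lt] at c8
  by_cases c9 : t < 19338
  · refine ⟨20, ?_, ?_⟩
    · change ((19000 : ℕ) : ℝ) - ((338 : ℕ) : ℝ) < t; push_cast; linarith
    · change t < ((19000 : ℕ) : ℝ) + ((338 : ℕ) : ℝ); push_cast; linarith
  rw [not_lt] at c9
  by_cases c10 : t < 19875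
  · refine ⟨19, ?_, ?_⟩
    · change ((19600 : ℕ) : ℝ) - ((275 : ℕ) : ℝ) < t; push_cast; linarith
    · change t < ((19600 : ℕ) : ℝ) + ((275 : ℕ) : ℝ); push_cast; linarith
  rw [not_lt] at c10
  by_cases c11 : t < 20565
  · refine ⟨18, ?_, ?_⟩
    · change ((20200 : ℕ) : ℝ) - ((365 : ℕ) : ℝ) < t; push_cast; linarith
    · change t < ((20200 : ℕ) : ℝ) + ((365 : ℕ) : ℝ); push_cast; linarith
  rw [not_lt] at c11
  by_cases c12 : t < 21076
  · refine ⟨17, ?_, ?_⟩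
    · change ((20800 : ℕ) : ℝ) - ((276 : ℕ) : ℝ) < t; push_cast; linarith
    · change t < ((20800 : ℕ) : ℝ) + ((276 : ℕ) : ℝ); push_cast; linarith
  rw [not_lt] at c12
  by_cases c13 : t < 21535
  · refine ⟨16, ?_, ?_⟩
    · change ((21300 : ℕ) : ℝ) - ((235 : ℕ) : ℝ) < t; push_cast; linarith
    · change t < ((21300 : ℕ) : ℝ) + ((235 : ℕ) : ℝ); push_cast; linarith
  rw [not_lt] at c13
  by_cases c14 : t < 22080
  · refine ⟨15, ?_, ?_⟩
    · change ((21800 : ℕ) : ℝ) - ((280 : ℕ) : ℝ) < t; push_cast; linarith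
    · change t < ((21800 : ℕ) : ℝ) + ((280 : ℕ) : ℝ); push_cast; linarith
  rw [not_lt] at c14
  by_cases c15 : t < 22959
  · refine ⟨14, ?_, ?_⟩
    · change ((22500 : ℕ) : ℝ) - ((459 : ℕ) : ℝ) < t; push_cast; linarith
    · change t < ((22500 : ℕ) : ℝ) + ((459 : ℕ) : ℝ); push_cast; linarith
  rw [not_lt] at c15
  by_cases c16 : t < 23678
  · refine ⟨13, ?_, ?_⟩
    · change ((23300 : ℕ) : ℝ) - ((378 : ℕ) : ℝ) < t; push_cast; linarith
    · change t < ((23300 : ℕ) : ℝ) + ((378 : ℕ) : ℝ); push_cast; linarith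
  rw [not_lt] at c16
  by_cases c17 : t < 24376
  · refine ⟨12, ?_, ?_⟩
    · change ((24000 : ℕ) : ℝ) - ((376 : ℕ) : ℝ) < t; push_cast; linarith
    · change t < ((24000 : ℕ) : ℝ) + ((376 : ℕ) : ℝ); push_cast; linarith
  rw [not_lt] at c17
  by_cases c18 : t < 25430
  · refine ⟨11, ?_, ?_⟩
    · change ((24900 : ℕ) : ℝ) - ((530 : ℕ) : ℝ) < t; push_cast; linarith
    · change t < ((24900 : ℕ) : ℝ) + ((530 : ℕ) : ℝ); push_cast; linarith
  rw [not_lt] at c18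
  by_cases c19 : t < 26183
  · refine ⟨10, ?_, ?_⟩
    · change ((25800 : ℕ) : ℝ) - ((383 : ℕ) : ℝ) < t; push_cast; linarith
    · change t < ((25800 : ℕ) : ℝ) + ((383 : ℕ) : ℝ); push_cast; linarith
  rw [not_lt] at c19
  by_cases c20 : t < 27250
  · refine ⟨9, ?_, ?_⟩
    · change ((26700 : ℕ) : ℝ) - ((550 : ℕ) : ℝ) < t; push_cast; linarith
    · change t < ((26700 : ℕ) : ℝ) + ((550 : ℕ) : ℝ); push_cast; linarith
  rw [not_lt] at c20
  by_cases c21 : t < 28187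
  · refine ⟨8, ?_, ?_⟩
    · change ((27700 : ℕ) : ℝ) - ((487 : ℕ) : ℝ) < t; push_cast; linarith
    · change t < ((27700 : ℕ) : ℝ) + ((487 : ℕ) : ℝ); push_cast; linarith
  rw [not_lt] at c21
  by_cases c22 : t < 29436
  · refine ⟨7, ?_, ?_⟩
    · change ((28800 : ℕ) : ℝ) - ((636 : ℕ) : ℝ) < t; push_cast; linarith
    · change t < ((28800 : ℕ) : ℝ) + ((636 : ℕ) : ℝ); push_cast; linarith
  rw [not_lt] at c22
  by_cases c23 : t < 30607
  · refine ⟨6, ?_, ?_⟩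
    · change ((30000 : ℕ) : ℝ) - ((607 : ℕ) : ℝ) < t; push_cast; linarith
    · change t < ((30000 : ℕ) : ℝ) + ((607 : ℕ) : ℝ); push_cast; linarith
  rw [not_lt] at c23
  by_cases c24 : t < 32253
  · refine ⟨5, ?_, ?_⟩
    · change ((31400 : ℕ) : ℝ) - ((853 : ℕ) : ℝ) < t; push_cast; linarith
    · change t < ((31400 : ℕ) : ℝ) + ((853 : ℕ) : ℝ); push_cast; linarith
  rw [not_lt] at c24
  by_cases c25 : t < 33377
  · refine ⟨4, ?_, ?_⟩
    · change ((32800 : ℕ) : ℝ) - ((577 : ℕ) : ℝ) < t; push_cast; linarith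
    · change t < ((32800 : ℕ) : ℝ) + ((577 : ℕ) : ℝ); push_cast; linarith
  rw [not_lt] at c25
  by_cases c26 : t < 34468
  · refine ⟨3, ?_, ?_⟩
    · change ((33900 : ℕ) : ℝ) - ((568 : ℕ) : ℝ) < t; push_cast; linarith
    · change t < ((33900 : ℕ) : ℝ) + ((568 : ℕ) : ℝ); push_cast; linarith
  rw [not_lt] at c26
  by_cases c27 : t < 35577
  · refine ⟨2, ?_, ?_⟩
    · change ((35000 : ℕ) : ℝ) - ((577 : ℕ) : ℝ) < t; push_cast; linarith
    · change t < ((35000 : ℕ) : ℝ) + ((577 : ℕ) : ℝ); push_cast; linarith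
  rw [not_lt] at c27
  by_cases c28 : t < 37432
  · refine ⟨1, ?_, ?_⟩
    · change ((36500 : ℕ) : ℝ) - ((932 : ℕ) : ℝ) < t; push_cast; linarith
    · change t < ((36500 : ℕ) : ℝ) + ((932 : ℕ) : ℝ); push_cast; linarith
  rw [not_lt] at c28
  refine ⟨0, ?_, ?_⟩
  · change ((38700 : ℕ) : ℝ) - ((1347 : ℕ) : ℝ) < t; push_cast; linarith
  · change t < ((38700 : ℕ) : ℝ) + ((1347 : ℕ) : ℝ); push_cast; linarith

/-- a medium which blocks energies -/
structure Med where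
  P : V 2 → Bool
  Z : Set ℂ
  blk : Blk P 12 Z

/-- the media for energies below the middle of the spectrum -/
def med : ℕ → Med
  | 0 => ⟨fun _ => true, {z | 4.05 ≤ ‖5 - z‖}, blk_const.mono (by norm_num)⟩
  | k + 1 => ⟨patt (wdt k), wz (wdt k), by
      obtain ⟨Ts, h⟩ := ok_wdt k
      exact (blk_of_ok h).mono (R_wdt k)⟩

/-- all the media -/
def meda (k : ℕ) : Med :=
  if k % 2 = 0 then med (k / 2) else
    ⟨fun y => !((med (k / 2)).P y), {z | 8 - z ∈ (med (k / 2)).Z}, (med (k / 2)).blk.flip⟩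

lemma cov_low {E : ℝ} (hE : E ≤ 4.001) : ∃ k, ∃ δ > 0, ∀ z : ℂ, ‖z - E‖ < δ → z ∈ (med k).Z := by
  by_cases h : E < 0.95
  · refine ⟨0, 0.95 - E, by linarith, fun z hz => ?_⟩
    change (4.05 : ℝ) ≤ ‖5 - z‖
    have h1 : ‖(5 : ℂ) - E‖ ≤ ‖5 - z‖ + ‖z - E‖ := by
      have := norm_add_le (5 - z) (z - E)
      rwa [sub_add_sub_cancel] at this
    have h2 : ‖(5 : ℂ) - E‖ = 5 - E := by
      rw [show (5 : ℂ) - E = ((5 - E : ℝ) : ℂ) by push_cast; ring, Complex.norm_real,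
        Real.norm_eq_abs, abs_of_pos (by linarith)]
    linarith
  · rw [not_lt] at h
    obtain ⟨k, h1, h2⟩ := cov (t := 10000 * E) (by linarith) (by linarith)
    refine ⟨k + 1, (((wdt k).dn : ℝ) - |10000 * E - (wdt k).e|) / 10000, ?_, fun z hz => ?_⟩
    · have : |10000 * E - (wdt k).e| < (wdt k).dn := abs_lt.2 ⟨by linarith, by linarith⟩
      apply div_pos _ (by norm_num)
      linarith
    · change ‖10000 * z - (wdt k).e‖ ≤ (wdt k).dn
      have h3 : ‖10000 * z - (wdt k).e‖ ≤ 10000 * ‖z - E‖ + |10000 * E - (wdt k).e| := by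
        have e1 : 10000 * z - ((wdt k).e : ℂ) = 10000 * (z - E) + ((10000 * E - (wdt k).e : ℝ) : ℂ) := by
          push_cast; ring
        rw [e1]
        refine (norm_add_le _ _).trans ?_
        rw [norm_mul, Complex.norm_real, Real.norm_eq_abs]
        norm_num
      have h4 : 10000 * ‖z - E‖ < ((wdt k).dn : ℝ) - |10000 * E - (wdt k).e| := by
        rw [lt_div_iff₀ (by norm_num)] at hz
        linarith
      linarith

/-- every real energy is blocked by one of the media, together with a complex neighbourhood -/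
theorem cov_all (E : ℝ) : ∃ k, ∃ δ > 0, ∀ z : ℂ, ‖z - E‖ < δ → z ∈ (meda k).Z := by
  by_cases h : E ≤ 4.001
  · obtain ⟨k, δ, hδ, hk⟩ := cov_low h
    refine ⟨2 * k, δ, hδ, fun z hz => ?_⟩
    have e1 : meda (2 * k) = med k := by
      unfold meda
      rw [if_pos (by omega), Nat.mul_div_cancel_left k (by norm_num)]
    rw [e1]; exact hk z hz
  · rw [not_le] at h
    obtain ⟨k, δ, hδ, hk⟩ := cov_low (E := 8 - E) (by linarith)
    refine ⟨2 * k + 1, δ, hδ, fun z hz => ?_⟩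
    have e1 : (2 * k + 1) / 2 = k := by omega
    unfold meda
    rw [if_neg (by omega)]
    change 8 - z ∈ (med ((2 * k + 1) / 2)).Z
    rw [e1]
    apply hk
    rw [show (8 : ℂ) - z - ((8 - E : ℝ) : ℂ) = -(z - E) by push_cast; ring, norm_neg]
    exact hz

end Pool.Agent.T9h50.AN
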